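import Pool.Agent.Formn.Defs

set_option autoImplicit false

/-!
# Saturated, solubly saturated and Fitting formations (MP_3bd419_al): definitions
-/

namespace Pool.Agent.FormZ

open Pool.Agent.Formn Pool.Agent.Formn.Formation

/-- Saturated formations: `E / Φ(E) ∈ F` implies `E ∈ F`. -/
def Saturated (F : Formation) : Prop :=
  ∀ (E : Type) [Group E] [Finite E], F.mem (E ⧸ frattini E) → F.mem E

/-- Solubly saturated formations: `E / Φ(N) ∈ F` for a soluble normal subgroup `N` of `E` implies
`E ∈ F`. -/
def SolSaturated (F : Formation) : Prop :=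
  ∀ (E : Type) [Group E] [Finite E] (N : Subgroup E) [N.Normal], Group.IsSolvable N →
    F.mem (E ⧸ (frattini N).map N.subtype) → F.mem E

/-- Weakly `p`-saturated formations: `E / Φ(N) ∈ F` for a normal `p`-subgroup `N` of `E` implies
`E ∈ F`. -/
def WSat (F : Formation) (p : ℕ) : Prop :=
  ∀ (E : Type) [Group E] [Finite E] (N : Subgroup E) [N.Normal], IsPGroup p N →
    F.mem (E ⧸ (frattini N).map N.subtype) → F.mem E

/-- Fitting formations: `F` is closed under normal subgroups and under products of two normal
subgroups. -/
def Fitting (F : Formation) : Prop :=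
  (∀ (G : Type) [Group G] [Finite G] (N : Subgroup G) [N.Normal], F.mem G → F.mem N) ∧
  ∀ (G : Type) [Group G] [Finite G] (M N : Subgroup G) [M.Normal] [N.Normal], M ⊔ N = ⊤ →
    F.mem M → F.mem N → F.mem G

end Pool.Agent.FormZ
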