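import Pool.Agent.Formn.Basic
import Pool.Agent.FormZ.Defs

set_option autoImplicit false

/-!
# Formations: fibre squares, central subgroups, maximal subgroups of `p`-groups
-/

namespace Pool.Agent.FormZ

open Pool.Agent.Formn Pool.Agent.Formn.Formation
open scoped commutatorElement

theorem mem_of_subdirect (F : Formation) {D A B : Type} [Group D] [Finite D] [Group A] [Finite A]
    [Group B] [Finite B] (φ : D →* A) (ψ : D →* B) (hφ : Function.Surjective φ)
    (hψ : Function.Surjective ψ) (h : φ.ker ⊓ ψ.ker = ⊥) (hA : F.mem A) (hB : F.mem B) :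
    F.mem D := by
  rw [← q_bot, ← h]
  exact q_inf ((q_hom φ hφ).2 hA) ((q_hom ψ hψ).2 hB)

/-- The pairs of elements which are congruent modulo `N`. -/
def fib {G : Type} [Group G] (N : Subgroup G) [hN : N.Normal] : Subgroup (G × G) where
  carrier := {x | x.1 * x.2⁻¹ ∈ N}
  mul_mem' := by
    intro x y hx hy
    change x.1 * y.1 * (x.2 * y.2)⁻¹ ∈ N
    have h1 : x.1 * y.1 * (x.2 * y.2)⁻¹ = (x.1 * (y.1 * y.2⁻¹) * x.1⁻¹) * (x.1 * x.2⁻¹) := by
      group
    rw [h1]
    exact N.mul_mem (hN.conj_mem _ hy _) hx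
  one_mem' := by
    change (1 : G) * 1⁻¹ ∈ N
    simp
  inv_mem' := by
    intro x hx
    change x.1⁻¹ * x.2⁻¹⁻¹ ∈ N
    have h1 : x.1⁻¹ * x.2⁻¹⁻¹ = x.1⁻¹ * (x.1 * x.2⁻¹)⁻¹ * x.1⁻¹⁻¹ := by group
    rw [h1]
    exact hN.conj_mem _ (N.inv_mem hx) _

theorem mem_fib {G : Type} [Group G] (N : Subgroup G) [N.Normal] (x : G × G) :
    x ∈ fib N ↔ x.1 * x.2⁻¹ ∈ N := Iff.rfl

theorem fib_mem (F : Formation) {G : Type} [Group G] [Finite G] (N : Subgroup G) [N.Normal]
    (hG : F.mem G) : F.mem (fib N) := by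
  refine mem_of_subdirect F ((MonoidHom.fst G G).comp (fib N).subtype)
    ((MonoidHom.snd G G).comp (fib N).subtype) ?_ ?_ ?_ hG hG
  · intro g
    exact ⟨⟨(g, g), by rw [mem_fib]; simp⟩, rfl⟩
  · intro g
    exact ⟨⟨(g, g), by rw [mem_fib]; simp⟩, rfl⟩
  · rw [eq_bot_iff]
    rintro ⟨⟨a, b⟩, h⟩ ⟨h1, h2⟩
    have h1' : a = 1 := h1
    have h2' : b = 1 := h2
    subst h1' h2'
    rfl

/-- Central subgroups of groups in a formation belong to the formation. -/
theorem central_mem (F : Formation) {G : Type} [Group G] [Finite G] (Z : Subgroup G)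
    (hZ : ∀ z ∈ Z, ∀ g : G, g * z = z * g) (hG : F.mem G) : F.mem Z := by
  have hn : Z.Normal := ⟨fun z hz g => by
    rw [hZ z hz g, mul_inv_cancel_right]; exact hz⟩
  refine F.of_surj (G := fib Z)
    { toFun := fun x => ⟨x.1.1 * x.1.2⁻¹, x.2⟩
      map_one' := by
        apply Subtype.ext
        change (1 : G) * 1⁻¹ = 1
        simp
      map_mul' := by
        rintro ⟨⟨a, b⟩, h⟩ ⟨⟨c, e⟩, h'⟩
        apply Subtype.ext
        change a * c * (b * e)⁻¹ = (a * b⁻¹) * (c * e⁻¹)
        have h1 : a * c * (b * e)⁻¹ = a * ((c * e⁻¹) * b⁻¹) := by group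
        rw [h1, ← hZ _ h' b⁻¹]
        group } ?_ (fib_mem F Z hG)
  rintro ⟨z, hz⟩
  refine ⟨⟨(z, 1), by rw [mem_fib]; simpa using hz⟩, ?_⟩
  apply Subtype.ext
  change z * 1⁻¹ = z
  simp

theorem mem_of_card_prime (F : Formation) {p : ℕ} (hp : p.Prime) {G H : Type} [Group G] [Finite G]
    [Group H] [Finite H] (hG : Nat.card G = p) (hH : Nat.card H = p) (h : F.mem G) :
    F.mem H := by
  have : Fact p.Prime := ⟨hp⟩
  exact F.iso G H (mulEquivOfPrimeCardEq hG hH) h

/-- Maximal subgroups of finite `p`-groups are normal, the factor groups have order `p`. -/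
theorem coatom {p : ℕ} [hp : Fact p.Prime] {P : Type} [Group P] [Finite P] (hP : IsPGroup p P)
    {M : Subgroup P} (hM : IsCoatom M) : ∃ _ : M.Normal, Nat.card (P ⧸ M) = p := by
  have hnil : Group.IsNilpotent P := hP.isNilpotent
  have hn : M.Normal :=
    Subgroup.NormalizerCondition.normal_of_coatom M Group.normalizerCondition_of_isNilpotent hM
  refine ⟨hn, ?_⟩
  have hnt : Nontrivial (P ⧸ M) := by
    by_contra h
    rw [not_nontrivial_iff_subsingleton] at h
    apply hM.1
    rw [eq_top_iff]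
    intro x _
    rw [← QuotientGroup.eq_one_iff]
    exact Subsingleton.elim _ _
  have hsub : ∀ K : Subgroup (P ⧸ M), K = ⊥ ∨ K = ⊤ := by
    intro K
    have h1 : M ≤ K.comap (QuotientGroup.mk' M) := by
      intro x hx
      rw [Subgroup.mem_comap]
      have : QuotientGroup.mk' M x = 1 := (QuotientGroup.eq_one_iff x).2 hx
      rw [this]
      exact K.one_mem
    rcases h1.eq_or_lt with h2 | h2
    · left
      rw [eq_bot_iff]
      intro k hk
      obtain ⟨x, rfl⟩ := QuotientGroup.mk'_surjective M k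
      have hx : x ∈ K.comap (QuotientGroup.mk' M) := hk
      rw [← h2] at hx
      rw [Subgroup.mem_bot]
      exact (QuotientGroup.eq_one_iff x).2 hx
    · right
      have h3 := hM.2 _ h2
      rw [eq_top_iff]
      intro k _
      obtain ⟨x, rfl⟩ := QuotientGroup.mk'_surjective M k
      have hx : x ∈ K.comap (QuotientGroup.mk' M) := by rw [h3]; trivial
      exact hx
  have hQ : IsPGroup p (P ⧸ M) := hP.to_quotient M
  have hc : Nontrivial (Subgroup.center (P ⧸ M)) := hQ.center_nontrivial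
  have hct : Subgroup.center (P ⧸ M) = ⊤ := by
    rcases hsub (Subgroup.center (P ⧸ M)) with h | h
    · exfalso
      rw [h] at hc
      exact not_subsingleton _ (inferInstance : Subsingleton (⊥ : Subgroup (P ⧸ M)))
    · exact h
  let _ : CommGroup (P ⧸ M) := Group.commGroupOfCenterEqTop hct
  have hs : IsSimpleGroup (P ⧸ M) := ⟨fun K _ => hsub K⟩
  have h1 := IsSimpleGroup.prime_card (α := P ⧸ M)
  obtain ⟨n, hn'⟩ := IsPGroup.iff_card.1 hQ
  have h2 : Nat.card (P ⧸ M) ∣ p ^ n := by rw [hn']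
  exact (Nat.prime_dvd_prime_iff_eq h1 hp.out).1 (h1.dvd_of_dvd_pow h2)

/-- Commutators lie in the maximal subgroups of finite `p`-groups. -/
theorem comm_mem_frattini {p : ℕ} [hp : Fact p.Prime] {P : Type} [Group P] [Finite P]
    (hP : IsPGroup p P) (x y : P) : ⁅x, y⁆ ∈ frattini P := by
  have key : ∀ M : Subgroup P, IsCoatom M → ⁅x, y⁆ ∈ M := by
    intro M hM
    obtain ⟨hn, hc⟩ := coatom hP hM
    have hcyc : IsCyclic (P ⧸ M) := isCyclic_of_prime_card hc
    rw [← QuotientGroup.eq_one_iff]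
    change QuotientGroup.mk' M ⁅x, y⁆ = 1
    rw [map_commutatorElement, commutatorElement_eq_one_iff_mul_comm]
    let _ : CommGroup (P ⧸ M) := IsCyclic.commGroup
    exact mul_comm _ _
  rw [frattini, Order.radical]
  simp only [Subgroup.mem_iInf]
  exact key

/-- A formation which contains the groups of order `p` contains `P / Φ(P)` for all finite
`p`-groups `P`. -/
theorem q_frattini (F : Formation) {p : ℕ} [hp : Fact p.Prime] {C : Type} [Group C] [Finite C]
    (hC : Nat.card C = p) (hF : F.mem C) {P : Type} [Group P] [Finite P] (hP : IsPGroup p P) :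
    F.q (frattini P) := by
  classical
  have hone : F.q (⊤ : Subgroup P) := by
    have h1 : F.mem PUnit := F.of_surj (1 : C →* PUnit) (fun x => ⟨1, Subsingleton.elim _ _⟩) hF
    have h2 := (q_hom (X := F) (1 : P →* PUnit) (fun x => ⟨1, Subsingleton.elim _ _⟩)).2 h1
    rwa [MonoidHom.ker_one] at h2
  have key : ∀ S : Set (Subgroup P), S.Finite → (∀ M ∈ S, IsCoatom M) → F.q (sInf S) := by
    intro S hS
    induction S, hS using Set.Finite.induction_on with
    | empty => intro _; rw [sInf_empty]; exact hone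
    | @insert M S _ _ ih =>
      intro h
      rw [sInf_insert]
      obtain ⟨hn, hc⟩ := coatom hP (h M (Set.mem_insert _ _))
      exact q_inf ⟨hn, mem_of_card_prime F hp.out hC hc hF⟩
        (ih fun K hK => h K (Set.mem_insert_of_mem _ hK))
  have h1 : frattini P = sInf {M : Subgroup P | IsCoatom M} := by
    rw [frattini, Order.radical, sInf_eq_iInf]
  rw [h1]
  exact key _ (Set.toFinite _) fun M hM => hM

end Pool.Agent.FormZ
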