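import Pool.Agent.FormZ.Cls
import Mathlib.GroupTheory.RegularWreathProduct

set_option autoImplicit false

/-!
# Fitting formations containing a group of order `p` contain all finite `p`-groups
-/

namespace Pool.Agent.FormZ

open Pool.Agent.Formn Pool.Agent.Formn.Formation
open scoped commutatorElement

section rad

variable (F : Formation) (hF : Fitting F)

include hF in
theorem sup_mem {G : Type} [Group G] [Finite G] (M N : Subgroup G) [M.Normal] [N.Normal]
    (hM : F.mem M) (hN : F.mem N) : F.mem (M ⊔ N : Subgroup G) := by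
  refine hF.2 _ (M.subgroupOf (M ⊔ N)) (N.subgroupOf (M ⊔ N)) ?_ ?_ ?_
  · rw [← Subgroup.subgroupOf_sup le_sup_left le_sup_right, Subgroup.subgroupOf_self]
  · exact F.iso _ _ (Subgroup.subgroupOfEquivOfLe le_sup_left).symm hM
  · exact F.iso _ _ (Subgroup.subgroupOfEquivOfLe le_sup_right).symm hN

/-- The normal subgroups in `F`. -/
def NF (G : Type) [Group G] [Finite G] : Set (Subgroup G) := {K | K.Normal ∧ F.mem K}

/-- The radical. -/
def rad (G : Type) [Group G] [Finite G] : Subgroup G := sSup (NF F G)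

include hF in
theorem sSup_mem (h1 : ∀ (H : Type) [Group H] [Finite H], Nat.card H = 1 → F.mem H)
    {G : Type} [Group G] [Finite G] (S : Set (Subgroup G)) (hS : S.Finite) (hSF : S ⊆ NF F G) :
    (sSup S).Normal ∧ F.mem (sSup S : Subgroup G) := by
  induction S, hS using Set.Finite.induction_on with
  | empty =>
    rw [sSup_empty]
    exact ⟨inferInstance, h1 _ (by simp)⟩
  | @insert K S _ _ ih =>
    obtain ⟨hn, hm⟩ := ih fun L hL => hSF (Set.mem_insert_of_mem _ hL)
    obtain ⟨hK, hKm⟩ := hSF (Set.mem_insert _ _)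
    rw [sSup_insert]
    exact ⟨inferInstance, sup_mem F hF K (sSup S) hKm hm⟩

include hF in
theorem rad_mem (h1 : ∀ (H : Type) [Group H] [Finite H], Nat.card H = 1 → F.mem H)
    (G : Type) [Group G] [Finite G] : F.mem (rad F G) :=
  (sSup_mem F hF h1 (NF F G) (Set.toFinite _) subset_rfl).2

theorem map_mem {G H : Type} [Group G] [Finite G] [Group H] [Finite H] (φ : G →* H)
    (hφ : Function.Injective φ) (K : Subgroup G) (hK : F.mem K) : F.mem (K.map φ) :=
  F.iso _ _ (K.equivMapOfInjective φ hφ) hK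

theorem map_mem_iff {G H : Type} [Group G] [Finite G] [Group H] [Finite H] (φ : G →* H)
    (hφ : Function.Injective φ) (K : Subgroup G) : F.mem (K.map φ) ↔ F.mem K :=
  ⟨fun h => F.iso _ _ (K.equivMapOfInjective φ hφ).symm h, map_mem F φ hφ K⟩

instance rad_char (G : Type) [Group G] [Finite G] : (rad F G).Characteristic := by
  rw [Subgroup.characteristic_iff_map_le]
  intro φ
  rw [rad, Subgroup.map_le_iff_le_comap]
  refine sSup_le ?_
  rintro K ⟨hK, hKm⟩
  rw [← Subgroup.map_le_iff_le_comap]
  refine le_sSup ⟨?_, map_mem F _ φ.injective K hKm⟩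
  exact hK.map _ φ.surjective

include hF in
theorem mem_rad (h1 : ∀ (H : Type) [Group H] [Finite H], Nat.card H = 1 → F.mem H) (p : ℕ)
    [Fact p.Prime] : ∀ (n : ℕ) (T : Type) [Group T] [Finite T], Nat.card T = n → IsPGroup p T →
      ∀ x : T, F.mem (Subgroup.zpowers x) → x ∈ rad F T := by
  intro n
  induction n using Nat.strong_induction_on with
  | _ n ih =>
    intro T _ _ hn hT x hx
    rcases eq_top_or_exists_le_coatom (Subgroup.zpowers x) with h | ⟨M, hM, hle⟩
    · have h2 : (⊤ : Subgroup T) ∈ NF F T := ⟨inferInstance, h ▸ hx⟩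
      exact (le_sSup h2 : _ ≤ rad F T) trivial
    · obtain ⟨hMn, -⟩ := coatom hT hM
      have hxM : x ∈ M := hle (Subgroup.mem_zpowers x)
      have hlt : Nat.card M < n := by
        rw [← hn]
        have h3 : (M : Set T) ⊂ Set.univ := by
          rw [Set.ssubset_univ_iff]
          intro h4
          exact hM.1 (SetLike.coe_injective (by rw [h4]; rfl))
        have h5 := Set.ncard_lt_ncard h3 (Set.toFinite _)
        rwa [Set.ncard_univ] at h5
      have hzp : F.mem (Subgroup.zpowers (⟨x, hxM⟩ : M)) := by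
        rw [← map_mem_iff F M.subtype (Subgroup.subtype_injective M), MonoidHom.map_zpowers]
        exact hx
      have h6 := ih _ hlt M rfl (hT.to_subgroup M) ⟨x, hxM⟩ hzp
      have h7 : (rad F M).map M.subtype ∈ NF F T :=
        ⟨inferInstance, map_mem F _ (Subgroup.subtype_injective M) _ (rad_mem F hF h1 M)⟩
      exact (le_sSup h7 : _ ≤ rad F T) ⟨_, h6, rfl⟩

/-- A formation with a nonempty class contains the trivial groups. -/
theorem triv_mem {C : Type} [Group C] [Finite C] (hC : F.mem C) (H : Type) [Group H] [Finite H]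
    (h : Nat.card H = 1) : F.mem H := by
  have hs : Subsingleton H := (Nat.card_eq_one_iff_unique.1 h).1
  exact F.of_surj (1 : C →* H) (fun x => ⟨1, Subsingleton.elim _ _⟩) hC

include hF in
/-- `p`-groups generated by elements of order `p` belong to the formation. -/
theorem gen_mem (p : ℕ) [hp : Fact p.Prime] {C : Type} [Group C] [Finite C]
    (hC : Nat.card C = p) (hCF : F.mem C) (T : Type) [Group T] [Finite T] (hT : IsPGroup p T)
    (hgen : Subgroup.closure {x : T | x ^ p = 1} = ⊤) : F.mem T := by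
  have h1 : ∀ (H : Type) [Group H] [Finite H], Nat.card H = 1 → F.mem H :=
    fun H _ _ h => triv_mem F hCF H h
  have h2 : rad F T = ⊤ := by
    rw [eq_top_iff, ← hgen, Subgroup.closure_le]
    intro x hx
    refine mem_rad F hF h1 p _ T rfl hT x ?_
    by_cases hx1 : x = 1
    · refine h1 _ ?_
      rw [Nat.card_zpowers, hx1, orderOf_one]
    · refine mem_of_card_prime F hp.out hC ?_ hCF
      rw [Nat.card_zpowers]
      exact orderOf_eq_prime hx hx1
  have h3 := rad_mem F hF h1 T
  rw [h2] at h3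
  exact F.iso _ _ Subgroup.topEquiv h3

open RegularWreathProduct in
include hF in
/-- All finite `p`-groups belong to the formation. -/
theorem fit_pgroup_mem (p : ℕ) [hp : Fact p.Prime] {C : Type} [Group C] [Finite C]
    (hC : Nat.card C = p) (hCF : F.mem C) (P : Type) [Group P] [Finite P] (hP : IsPGroup p P) :
    F.mem P := by
  classical
  let Q : Type := Multiplicative (ZMod p)
  have hQfin : Finite Q := inferInstanceAs (Finite (ZMod p))
  let W : Type := P ≀ᵣ Q
  have hQ : ∀ q : Q, q ^ p = 1 := by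
    intro q
    change p • Multiplicative.toAdd q = 0
    rw [nsmul_eq_mul, ZMod.natCast_self, zero_mul]
  have hW : IsPGroup p W := by
    obtain ⟨n, hn⟩ := IsPGroup.iff_card.1 hP
    refine IsPGroup.of_card (n := n * p + 1) ?_
    have hcQ : Nat.card Q = p := Nat.card_zmod p
    change Nat.card (P ≀ᵣ Q) = _
    rw [RegularWreathProduct.card, hn, hcQ, ← pow_mul, pow_succ]
  let T : Subgroup W := Subgroup.closure {w : W | w ^ p = 1}
  have hTF : F.mem T := by
    refine gen_mem F hF p hC hCF T (hW.to_subgroup T) ?_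
    have h1 : Subgroup.closure ((↑) ⁻¹' {w : W | w ^ p = 1} : Set T) = ⊤ :=
      Subgroup.closure_preimage_eq_top _
    have h2 : ((↑) ⁻¹' {w : W | w ^ p = 1} : Set T) = {x : T | x ^ p = 1} := by
      ext x
      change (x : W) ^ p = 1 ↔ x ^ p = 1
      rw [Subtype.ext_iff]
      rfl
    rw [← h2]
    exact h1
  let B : Subgroup T := ((rightHom : W →* Q).comp T.subtype).ker
  have hBF : F.mem B := hF.1 T B hTF
  have hBr : ∀ b : B, (b.1.1 : W).right = 1 := fun b => b.2
  let ev : B →* P :=
    { toFun := fun b => (b.1.1 : W).left 1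
      map_one' := rfl
      map_mul' := by
        intro a b
        change ((a.1.1 : W) * (b.1.1 : W)).left 1 = _
        rw [RegularWreathProduct.mul_left, Pi.mul_apply, hBr a, inv_one, one_mul] }
  refine F.of_surj ev ?_ hBF
  intro x
  let s0 : Q := Multiplicative.ofAdd 1
  have hs0 : s0⁻¹ ≠ 1 := by
    intro h
    have h1 : s0 = 1 := inv_eq_one.1 h
    have h2 : (1 : ZMod p) = 0 := h1
    exact one_ne_zero h2
  let s : W := inl s0
  let h : W := ⟨Pi.mulSingle 1 x, 1⟩
  have hs : s ^ p = 1 := by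
    change (inl s0 : W) ^ p = 1
    rw [← map_pow, hQ, map_one]
  have hc : (h * s * h⁻¹) ^ p = 1 := by
    rw [conj_pow, hs, mul_one, mul_inv_cancel]
  have hsT : s ∈ T := Subgroup.subset_closure hs
  have hcT : h * s * h⁻¹ ∈ T := Subgroup.subset_closure hc
  have huT : h * s * h⁻¹ * s⁻¹ ∈ T := T.mul_mem hcT (T.inv_mem hsT)
  have hur : (h * s * h⁻¹ * s⁻¹).right = 1 := by
    change (1 : Q) * s0 * (1 : Q)⁻¹ * s0⁻¹ = 1
    rw [one_mul, inv_one, mul_one, mul_inv_cancel]
  refine ⟨⟨⟨_, huT⟩, hur⟩, ?_⟩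
  change (h * s * h⁻¹ * s⁻¹).left 1 = x
  have e1 : h.left 1 = x := by
    change (Pi.mulSingle 1 x : Q → P) 1 = x
    simp
  have e2 : h.left s0⁻¹ = 1 := by
    change (Pi.mulSingle 1 x : Q → P) s0⁻¹ = 1
    rw [Pi.mulSingle_eq_of_ne hs0]
  have e3 : ∀ q, s.left q = 1 := fun q => rfl
  have e4 : h.right * ((h.right * s.right)⁻¹ * 1) = s0⁻¹ := by
    change (1 : Q) * (((1 : Q) * s0)⁻¹ * 1) = s0⁻¹
    rw [one_mul, one_mul, mul_one]
  have key : (h * s * h⁻¹ * s⁻¹).left 1 = h.left 1 * s.left (h.right⁻¹ * 1) *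
      (h.left (h.right * ((h.right * s.right)⁻¹ * 1)))⁻¹ *
      (s.left (s.right * ((h.right * s.right * h.right⁻¹)⁻¹ * 1)))⁻¹ := rfl
  rw [key, e4, e1, e2, e3, e3, inv_one, mul_one, mul_one, mul_one]

end rad

end Pool.Agent.FormZ
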