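import Pool.Agent.Formn.Basic

set_option autoImplicit false

/-!
# Formations: an explicit obstruction to distributivity for every prime

`Tg R d` is the group of the pairs `(s, m)` in `R` with the multiplication
`(s, m) (t, n) = (s + t + d s t, m + (1 + d s) n)`, for a nilpotent element `d` of a commutative
ring `R`.  The lattice of subformations of a formation which contains `Tg R X`, with
`R = (ZMod (p ^ 2))[X] / ((p X ^ 2, X ^ (p + 2)) ∩ (X ^ (p + 1)))`, is not distributive.
-/

namespace Pool.Agent.FormZ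

open Pool.Agent.Formn Pool.Agent.Formn.Formation Polynomial
open scoped commutatorElement

/-! ### Formations given by a law -/

theorem lift_naturality {G H : Type} [Group G] [Group H] (φ : G →* H) (f : Bool → G)
    (w : FreeGroup Bool) : φ (FreeGroup.lift f w) = FreeGroup.lift (fun b => φ (f b)) w := by
  have h : φ.comp (FreeGroup.lift f) = FreeGroup.lift (fun b => φ (f b)) := by
    ext b
    simp
  rw [← h]
  rfl

theorem lift_surj {G H : Type} [Group G] [Group H] (φ : G →* H) (hφ : Function.Surjective φ)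
    (w : FreeGroup Bool) (h : ∀ f : Bool → G, FreeGroup.lift f w = 1) (f : Bool → H) :
    FreeGroup.lift f w = 1 := by
  choose g hg using fun b => hφ (f b)
  have h1 := lift_naturality φ g w
  rw [h g, map_one] at h1
  have h2 : (fun b => φ (g b)) = f := funext hg
  rw [h2] at h1
  exact h1.symm

/-- The formation of the finite groups which satisfy the law `w = 1` in two variables. -/
def law (w : FreeGroup Bool) : Formation where
  mem G _ _ := ∀ f : Bool → G, FreeGroup.lift f w = 1
  iso := by
    intro G H _ _ _ _ e h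
    exact lift_surj e.toMonoidHom e.surjective w h
  quot := by
    intro G _ _ N _ h
    exact lift_surj (QuotientGroup.mk' N) (QuotientGroup.mk'_surjective N) w h
  sub := by
    intro G _ _ N₁ N₂ _ _ h1 h2 f
    let β₁ : G ⧸ (N₁ ⊓ N₂) →* G ⧸ N₁ :=
      QuotientGroup.map (N₁ ⊓ N₂) N₁ (MonoidHom.id G) inf_le_left
    let β₂ : G ⧸ (N₁ ⊓ N₂) →* G ⧸ N₂ :=
      QuotientGroup.map (N₁ ⊓ N₂) N₂ (MonoidHom.id G) inf_le_right
    have e1 : β₁ (FreeGroup.lift f w) = 1 := by rw [lift_naturality]; exact h1 _
    have e2 : β₂ (FreeGroup.lift f w) = 1 := by rw [lift_naturality]; exact h2 _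
    obtain ⟨z, hz⟩ := QuotientGroup.mk_surjective (FreeGroup.lift f w)
    rw [← hz] at e1 e2 ⊢
    have e1' : (QuotientGroup.mk z : G ⧸ N₁) = 1 := e1
    have e2' : (QuotientGroup.mk z : G ⧸ N₂) = 1 := e2
    rw [QuotientGroup.eq_one_iff] at e1' e2' ⊢
    exact ⟨e1', e2'⟩

/-- The word `[x, [x, ... [x, y] ... ]]` with `k` letters `x`. -/
def eng : ℕ → FreeGroup Bool
  | 0 => FreeGroup.of false
  | k + 1 => ⁅FreeGroup.of true, eng k⁆

/-! ### The groups -/

/-- Pairs of elements of `R`. -/
@[ext]
structure Tg (R : Type) [CommRing R] (d : R) where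
  s : R
  m : R

namespace Tg

variable {R S : Type} [CommRing R] [CommRing S] {d : R} {e : S}

theorem unit_of [Fact (IsNilpotent d)] (s : R) : IsUnit (1 + d * s) := by
  obtain ⟨n, hn⟩ := (Fact.out : IsNilpotent d)
  have h : IsNilpotent (d * s) := ⟨n, by rw [mul_pow, hn, zero_mul]⟩
  exact h.isUnit_one_add

noncomputable instance [Fact (IsNilpotent d)] : Group (Tg R d) :=
  { mul := fun x y => ⟨x.s + y.s + d * x.s * y.s, x.m + (1 + d * x.s) * y.m⟩
    one := ⟨0, 0⟩
    inv := fun x => ⟨-x.s * Ring.inverse (1 + d * x.s), -x.m * Ring.inverse (1 + d * x.s)⟩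
    mul_assoc := by
      intro x y z
      apply Tg.ext
      · change (x.s + y.s + d * x.s * y.s) + z.s + d * (x.s + y.s + d * x.s * y.s) * z.s =
          x.s + (y.s + z.s + d * y.s * z.s) + d * x.s * (y.s + z.s + d * y.s * z.s)
        ring
      · change (x.m + (1 + d * x.s) * y.m) + (1 + d * (x.s + y.s + d * x.s * y.s)) * z.m =
          x.m + (1 + d * x.s) * (y.m + (1 + d * y.s) * z.m)
        ring
    one_mul := by
      intro x
      apply Tg.ext
      · change 0 + x.s + d * 0 * x.s = x.s
        ring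
      · change 0 + (1 + d * 0) * x.m = x.m
        ring
    mul_one := by
      intro x
      apply Tg.ext
      · change x.s + 0 + d * x.s * 0 = x.s
        ring
      · change x.m + (1 + d * x.s) * 0 = x.m
        ring
    inv_mul_cancel := by
      intro x
      have h := Ring.inverse_mul_cancel _ (unit_of (d := d) x.s)
      apply Tg.ext
      · change -x.s * Ring.inverse (1 + d * x.s) + x.s +
          d * (-x.s * Ring.inverse (1 + d * x.s)) * x.s = 0
        linear_combination (-x.s) * h
      · change -x.m * Ring.inverse (1 + d * x.s) +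
          (1 + d * (-x.s * Ring.inverse (1 + d * x.s))) * x.m = 0
        linear_combination (-x.m) * h }

section

variable [Fact (IsNilpotent d)] [Fact (IsNilpotent e)]

theorem mul_def (x y : Tg R d) :
    x * y = ⟨x.s + y.s + d * x.s * y.s, x.m + (1 + d * x.s) * y.m⟩ := rfl

theorem one_def : (1 : Tg R d) = ⟨0, 0⟩ := rfl

theorem comm_formula (x y : Tg R d) : ⁅x, y⁆ = ⟨0, d * (x.s * y.m - y.s * x.m)⟩ := by
  have h : x * y = (⟨0, d * (x.s * y.m - y.s * x.m)⟩ : Tg R d) * (y * x) := by
    rw [mul_def, mul_def y x, mul_def]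
    apply Tg.ext
    · change x.s + y.s + d * x.s * y.s = 0 + (y.s + x.s + d * y.s * x.s) +
        d * 0 * (y.s + x.s + d * y.s * x.s)
      ring
    · change x.m + (1 + d * x.s) * y.m = d * (x.s * y.m - y.s * x.m) +
        (1 + d * 0) * (y.m + (1 + d * y.s) * x.m)
      ring
  rw [commutatorElement_def, h]
  group

theorem pow_formula (c : R) (k : ℕ) : (⟨0, c⟩ : Tg R d) ^ k = ⟨0, k * c⟩ := by
  induction k with
  | zero =>
    rw [pow_zero, one_def]
    simp
  | succ k ih =>
    rw [pow_succ, ih, mul_def]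
    apply Tg.ext
    · change (0 : R) + 0 + d * 0 * 0 = 0
      ring
    · change (k : R) * c + (1 + d * 0) * c = ((k + 1 : ℕ) : R) * c
      push_cast
      ring

theorem eng_formula (f : Bool → Tg R d) (k : ℕ) :
    FreeGroup.lift f (eng (k + 1)) =
      ⟨0, d ^ (k + 1) * ((f true).s ^ k * ((f true).s * (f false).m - (f false).s * (f true).m))⟩ := by
  induction k with
  | zero =>
    change FreeGroup.lift f ⁅FreeGroup.of true, FreeGroup.of false⁆ = _
    rw [map_commutatorElement, FreeGroup.lift_apply_of, FreeGroup.lift_apply_of, comm_formula]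
    simp
  | succ k ih =>
    change FreeGroup.lift f ⁅FreeGroup.of true, eng (k + 1)⁆ = _
    rw [map_commutatorElement, ih, FreeGroup.lift_apply_of, comm_formula]
    apply Tg.ext
    · rfl
    · dsimp only
      ring

/-- The homomorphism induced by a homomorphism of rings. -/
noncomputable def map (φ : R →+* S) (h : φ d = e) : Tg R d →* Tg S e where
  toFun x := ⟨φ x.s, φ x.m⟩
  map_one' := by
    rw [one_def, one_def]
    simp
  map_mul' x y := by
    rw [mul_def, mul_def]
    apply Tg.ext
    · simp [h]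
    · simp [h]

theorem map_surj (φ : R →+* S) (h : φ d = e) (hφ : Function.Surjective φ) :
    Function.Surjective (map φ h) := by
  rintro ⟨a, b⟩
  obtain ⟨a', rfl⟩ := hφ a
  obtain ⟨b', rfl⟩ := hφ b
  exact ⟨⟨a', b'⟩, rfl⟩

theorem mem_ker_map (φ : R →+* S) (h : φ d = e) (x : Tg R d) :
    x ∈ (map φ h).ker ↔ φ x.s = 0 ∧ φ x.m = 0 := by
  rw [MonoidHom.mem_ker, one_def]
  constructor
  · intro h1
    exact ⟨congrArg Tg.s h1, congrArg Tg.m h1⟩
  · rintro ⟨h1, h2⟩
    exact Tg.ext h1 h2

end

/-- Pairs. -/
def equivProd (R : Type) [CommRing R] (d : R) : Tg R d ≃ R × R where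
  toFun x := (x.s, x.m)
  invFun x := ⟨x.1, x.2⟩
  left_inv _ := rfl
  right_inv _ := rfl

instance [Finite R] : Finite (Tg R d) := Finite.of_equiv _ (equivProd R d).symm

end Tg

end Pool.Agent.FormZ
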