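import Pool.Agent.FormZ.Obs

set_option autoImplicit false

/-!
# Formations containing the obstruction are not distributive
-/

namespace Pool.Agent.FormZ

open Pool.Agent.Formn Pool.Agent.Formn.Formation Polynomial
open scoped commutatorElement

variable {p : ℕ}

instance : Fact (IsNilpotent (Ideal.Quotient.mk (J0 p) X)) := ⟨nilp X_mem_J0⟩
instance : Fact (IsNilpotent (Ideal.Quotient.mk (J1 p) X)) := ⟨nilp X_mem_J1⟩
instance : Fact (IsNilpotent (Ideal.Quotient.mk (J2 p) X)) := ⟨nilp X_mem_J2⟩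
instance : Fact (IsNilpotent (Ideal.Quotient.mk (J3 p) X)) := ⟨nilp X_mem_J3⟩

instance [Fact p.Prime] : Finite (Po p ⧸ J0 p) := finite_quot Fact.out X_mem_J0
instance [Fact p.Prime] : Finite (Po p ⧸ J1 p) := finite_quot Fact.out X_mem_J1
instance [Fact p.Prime] : Finite (Po p ⧸ J2 p) := finite_quot Fact.out X_mem_J2
instance [Fact p.Prime] : Finite (Po p ⧸ J3 p) := finite_quot Fact.out X_mem_J3

/-- The group for the ideal `J`. -/
abbrev GJ (J : Ideal (Po p)) : Type := Tg (Po p ⧸ J) (Ideal.Quotient.mk J X)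

/-- The word `[x, [x, y]] ^ p`. -/
def wB (p : ℕ) : FreeGroup Bool := eng 2 ^ p

/-- The word `[x, [x, ... [x, y] ... ]]` with `p + 1` letters `x`. -/
def wC (p : ℕ) : FreeGroup Bool := eng (p + 1)

theorem wB_formula (J : Ideal (Po p)) [Fact (IsNilpotent (Ideal.Quotient.mk J X))]
    (f : Bool → GJ J) (a b c e : Po p) (ha : (f true).s = Ideal.Quotient.mk J a)
    (hb : (f true).m = Ideal.Quotient.mk J b) (hc : (f false).s = Ideal.Quotient.mk J c)
    (he : (f false).m = Ideal.Quotient.mk J e) :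
    FreeGroup.lift f (wB p) = ⟨0, Ideal.Quotient.mk J
      (C (p : ZMod (p ^ 2)) * X ^ 2 * a * (a * e - c * b))⟩ := by
  rw [wB, map_pow, Tg.eng_formula, Tg.pow_formula, ha, hb, hc, he]
  congr 1
  have h1 : ((p : ℕ) : Po p ⧸ J) = Ideal.Quotient.mk J (C (p : ZMod (p ^ 2))) := by
    rw [map_natCast, map_natCast]
  rw [h1]
  simp only [← map_mul, ← map_sub, ← map_pow]
  congr 1
  ring

theorem wC_formula (J : Ideal (Po p)) [Fact (IsNilpotent (Ideal.Quotient.mk J X))]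
    (f : Bool → GJ J) (a b c e : Po p) (ha : (f true).s = Ideal.Quotient.mk J a)
    (hb : (f true).m = Ideal.Quotient.mk J b) (hc : (f false).s = Ideal.Quotient.mk J c)
    (he : (f false).m = Ideal.Quotient.mk J e) :
    FreeGroup.lift f (wC p) = ⟨0, Ideal.Quotient.mk J (X ^ (p + 1) * a ^ p * (a * e - c * b))⟩ := by
  rw [wC, Tg.eng_formula, ha, hb, hc, he]
  congr 1
  simp only [← map_mul, ← map_sub, ← map_pow]
  congr 1
  ring

theorem exists_reps (J : Ideal (Po p)) (f : Bool → GJ J) :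
    ∃ a b c e : Po p, (f true).s = Ideal.Quotient.mk J a ∧ (f true).m = Ideal.Quotient.mk J b ∧
      (f false).s = Ideal.Quotient.mk J c ∧ (f false).m = Ideal.Quotient.mk J e := by
  obtain ⟨a, ha⟩ := Ideal.Quotient.mk_surjective (f true).s
  obtain ⟨b, hb⟩ := Ideal.Quotient.mk_surjective (f true).m
  obtain ⟨c, hc⟩ := Ideal.Quotient.mk_surjective (f false).s
  obtain ⟨e, he⟩ := Ideal.Quotient.mk_surjective (f false).m
  exact ⟨a, b, c, e, ha.symm, hb.symm, hc.symm, he.symm⟩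

variable [hp : Fact p.Prime]

theorem mem_B : (law (wB p)).mem (GJ (J1 p)) := by
  intro f
  obtain ⟨a, b, c, e, ha, hb, hc, he⟩ := exists_reps _ f
  rw [wB_formula _ f a b c e ha hb hc he, Tg.one_def]
  congr 1
  rw [Ideal.Quotient.eq_zero_iff_mem]
  exact Ideal.mul_mem_right _ _ (Ideal.mul_mem_right _ _ pX_mem_J1)

theorem mem_C : (law (wC p)).mem (GJ (J2 p)) := by
  intro f
  obtain ⟨a, b, c, e, ha, hb, hc, he⟩ := exists_reps _ f
  rw [wC_formula _ f a b c e ha hb hc he, Tg.one_def]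
  congr 1
  rw [Ideal.Quotient.eq_zero_iff_mem]
  exact Ideal.mul_mem_right _ _ (Ideal.mul_mem_right _ _ X_mem_J2')

theorem mem_A : (law (wB p * (wC p)⁻¹)).mem (GJ (J3 p)) := by
  intro f
  obtain ⟨a, b, c, e, ha, hb, hc, he⟩ := exists_reps _ f
  rw [map_mul, map_inv, mul_inv_eq_one, wB_formula _ f a b c e ha hb hc he,
    wC_formula _ f a b c e ha hb hc he]
  congr 1
  rw [Ideal.Quotient.mk_eq_mk_iff_sub_mem, ← sub_mul]
  exact Ideal.mul_mem_right _ _ (key_mem hp.out a)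

theorem not_mem_B : ¬ (law (wB p)).mem (GJ (J3 p)) := by
  intro h
  have h1 := h (fun b => if b then ⟨1, 0⟩ else ⟨0, 1⟩)
  rw [wB_formula _ _ 1 0 0 1 (by simp) (by simp) (by simp) (by simp), Tg.one_def] at h1
  have h2 := congrArg Tg.m h1
  dsimp only at h2
  rw [Ideal.Quotient.eq_zero_iff_mem] at h2
  apply pX_not_mem_J3 hp.out.two_le
  have h3 : C (p : ZMod (p ^ 2)) * X ^ 2 * 1 * (1 * 1 - 0 * 0) =
      C (p : ZMod (p ^ 2)) * X ^ 2 := by ring
  rwa [h3] at h2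

/-- The obstruction group. -/
abbrev XG (p : ℕ) : Type := GJ (J0 p)

/-- The homomorphism given by an inclusion of ideals. -/
noncomputable def fac {J J' : Ideal (Po p)} [Fact (IsNilpotent (Ideal.Quotient.mk J X))]
    [Fact (IsNilpotent (Ideal.Quotient.mk J' X))] (h : J ≤ J') : GJ J →* GJ J' :=
  Tg.map (Ideal.Quotient.factor h) (by rw [Ideal.Quotient.factor_mk])

omit hp in
theorem fac_surj {J J' : Ideal (Po p)} [Fact (IsNilpotent (Ideal.Quotient.mk J X))]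
    [Fact (IsNilpotent (Ideal.Quotient.mk J' X))] (h : J ≤ J') :
    Function.Surjective (fac h) :=
  Tg.map_surj _ _ (Ideal.Quotient.factor_surjective h)

omit hp in
theorem ker_inf : (fac (J0_le_J1 (p := p))).ker ⊓ (fac (J0_le_J2 (p := p))).ker = ⊥ := by
  rw [eq_bot_iff]
  rintro x ⟨h1, h2⟩
  have h1' := (Tg.mem_ker_map _ _ x).1 h1
  have h2' := (Tg.mem_ker_map _ _ x).1 h2
  have key : ∀ z : Po p ⧸ J0 p, Ideal.Quotient.factor (J0_le_J1 (p := p)) z = 0 →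
      Ideal.Quotient.factor (J0_le_J2 (p := p)) z = 0 → z = 0 := by
    intro z hz1 hz2
    obtain ⟨g, rfl⟩ := Ideal.Quotient.mk_surjective z
    rw [Ideal.Quotient.factor_mk, Ideal.Quotient.eq_zero_iff_mem] at hz1 hz2
    rw [Ideal.Quotient.eq_zero_iff_mem]
    exact ⟨hz1, hz2⟩
  rw [Subgroup.mem_bot, Tg.one_def]
  exact Tg.ext (key _ h1'.1 h2'.1) (key _ h1'.2 h2'.2)

/-- A formation which contains the obstruction group for some prime does not have a distributive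
lattice of subformations. -/
theorem obstruction (F : Formation) (hF : F.mem (XG p)) :
    ¬ ∀ x y z : Set.Iic F, x ⊓ (y ⊔ z) = (x ⊓ y) ⊔ (x ⊓ z) := by
  intro hd
  have hle : ∀ Y : Formation, F ⊓ Y ∈ Set.Iic F := fun Y => (inf_le_left : F ⊓ Y ≤ F)
  have h := hd ⟨F ⊓ law (wB p * (wC p)⁻¹), hle _⟩ ⟨F ⊓ law (wB p), hle _⟩
    ⟨F ⊓ law (wC p), hle _⟩
  have h' : (F ⊓ law (wB p * (wC p)⁻¹)) ⊓ ((F ⊓ law (wB p)) ⊔ (F ⊓ law (wC p))) =
      ((F ⊓ law (wB p * (wC p)⁻¹)) ⊓ (F ⊓ law (wB p))) ⊔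
        ((F ⊓ law (wB p * (wC p)⁻¹)) ⊓ (F ⊓ law (wC p))) := congrArg Subtype.val h
  have hE : F.mem (GJ (J3 p)) := F.of_surj _ (fac_surj J0_le_J3) hF
  have h1 : ((F ⊓ law (wB p)) ⊔ (F ⊓ law (wC p))).mem (GJ (J3 p)) := by
    refine mem_sup_of (fac (J0_le_J3 (p := p))) (fac_surj J0_le_J3) (ker_inf (p := p)) ?_ ?_
    · rw [q_hom _ (fac_surj J0_le_J1)]
      exact ⟨F.of_surj _ (fac_surj J0_le_J1) hF, mem_B⟩
    · rw [q_hom _ (fac_surj J0_le_J2)]
      exact ⟨F.of_surj _ (fac_surj J0_le_J2) hF, mem_C⟩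
  have h2 : ((F ⊓ law (wB p * (wC p)⁻¹)) ⊓ ((F ⊓ law (wB p)) ⊔ (F ⊓ law (wC p)))).mem
      (GJ (J3 p)) := ⟨⟨hE, mem_A⟩, h1⟩
  rw [h'] at h2
  have h3 : ((F ⊓ law (wB p * (wC p)⁻¹)) ⊓ (F ⊓ law (wB p))) ⊔
        ((F ⊓ law (wB p * (wC p)⁻¹)) ⊓ (F ⊓ law (wC p))) ≤ law (wB p) := by
    refine sup_le ?_ ?_
    · intro G _ _ hG
      exact hG.2.2
    · intro G _ _ hG f
      have e1 := hG.1.2 f
      have e2 := hG.2.2 f
      rw [map_mul, map_inv, e2, inv_one, mul_one] at e1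
      exact e1
  exact not_mem_B (h3 _ h2)

/-! ### The obstruction group is a metabelian `p`-group -/

theorem isPGroup_XG : IsPGroup p (XG p) := by
  have h0 : ∀ r : Po p ⧸ J0 p, ((p ^ 2 : ℕ) : Po p ⧸ J0 p) * r = 0 := by
    intro r
    have : ((p ^ 2 : ℕ) : Po p ⧸ J0 p) = 0 := by
      have h1 : ((p ^ 2 : ℕ) : Po p ⧸ J0 p) = Ideal.Quotient.mk (J0 p) (C ((p ^ 2 : ℕ) :
          ZMod (p ^ 2))) := by
        rw [map_natCast, map_natCast]
      rw [h1, ZMod.natCast_self, C_0, map_zero]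
    rw [this, zero_mul]
  have h1 : IsPGroup p (Multiplicative (Po p ⧸ J0 p)) := by
    intro g
    refine ⟨2, ?_⟩
    have h2 : (p ^ 2) • (Multiplicative.toAdd g) = 0 := by
      rw [nsmul_eq_mul]
      exact h0 _
    exact h2
  obtain ⟨n, hn⟩ := IsPGroup.iff_card.1 h1
  have hn' : Nat.card (Po p ⧸ J0 p) = p ^ n := hn
  refine IsPGroup.of_card (n := n + n) ?_
  rw [Nat.card_congr (Tg.equivProd (Po p ⧸ J0 p) _), Nat.card_prod, hn', pow_add]

omit hp in
theorem metabelian_XG (x y z w : XG p) : ⁅⁅x, y⁆, ⁅z, w⁆⁆ = 1 := by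
  rw [Tg.comm_formula x y, Tg.comm_formula z w, Tg.comm_formula, Tg.one_def]
  apply Tg.ext
  · rfl
  · dsimp only
    ring

end Pool.Agent.FormZ
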