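import Pool.Agent.FormZ.Sat
import Pool.Agent.FormZ.Fit
import Pool.Agent.FormZ.ObsMain
import Pool.Agent.Formn.AbSylMain

set_option autoImplicit false

/-!
# Distributive lattices of subformations: saturated, solubly saturated and Fitting formations
-/

namespace Pool.Agent.FormZ

open Pool.Agent.Formn Pool.Agent.Formn.Formation

/-- The lattice of the subformations of `F` is distributive. -/
def Distrib (F : Formation) : Prop :=
  ∀ x y z : Set.Iic F, x ⊓ (y ⊔ z) = (x ⊓ y) ⊔ (x ⊓ z)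

/-- No group of `F` has a nontrivial abelian normal subgroup. -/
def NoAb (F : Formation) : Prop :=
  ∀ (G : Type) [Group G] [Finite G] (A : Subgroup G) [A.Normal], F.mem G →
    (∀ a ∈ A, ∀ b ∈ A, a * b = b * a) → A = ⊥

/-- No group of `F` has a nontrivial normal `p`-subgroup. -/
def NoNormalP (F : Formation) (p : ℕ) : Prop :=
  ∀ (G : Type) [Group G] [Finite G] (N : Subgroup G) [N.Normal], F.mem G → IsPGroup p N → N = ⊥

/-- The elements of order dividing `p` in an abelian normal subgroup. -/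
def Om {G : Type} [Group G] (p : ℕ) (A : Subgroup G)
    (hab : ∀ a ∈ A, ∀ b ∈ A, a * b = b * a) : Subgroup G where
  carrier := {a | a ∈ A ∧ a ^ p = 1}
  mul_mem' := by
    rintro a b ⟨ha, ha'⟩ ⟨hb, hb'⟩
    refine ⟨A.mul_mem ha hb, ?_⟩
    have h : Commute a b := hab a ha b hb
    rw [h.mul_pow, ha', hb', one_mul]
  one_mem' := ⟨A.one_mem, one_pow p⟩
  inv_mem' := by
    rintro a ⟨ha, ha'⟩
    refine ⟨A.inv_mem ha, ?_⟩
    rw [inv_pow, ha', inv_one]

theorem exists_V {G : Type} [Group G] [Finite G] (p : ℕ) [hp : Fact p.Prime] (A : Subgroup G)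
    [hA : A.Normal] (hab : ∀ a ∈ A, ∀ b ∈ A, a * b = b * a) (hpA : p ∣ Nat.card A) :
    ∃ V : Subgroup G, V.Normal ∧ CommV V ∧ (∀ x : V, x ^ p = 1) ∧ V ≠ ⊥ := by
  refine ⟨Om p A hab, ⟨?_⟩, ⟨?_⟩, ?_, ?_⟩
  · rintro a ⟨ha, ha'⟩ g
    refine ⟨hA.conj_mem a ha g, ?_⟩
    rw [conj_pow, ha', mul_one, mul_inv_cancel]
  · rintro ⟨x, hx⟩ ⟨y, hy⟩
    exact Subtype.ext (hab x hx.1 y hy.1)
  · rintro ⟨x, hx⟩
    exact Subtype.ext hx.2
  · obtain ⟨x, hx⟩ := exists_prime_orderOf_dvd_card' p hpA
    intro h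
    have h1 : (x : G) ∈ Om p A hab := by
      refine ⟨x.2, ?_⟩
      have h2 : x ^ p = 1 := by rw [← hx, pow_orderOf_eq_one]
      exact congrArg Subtype.val h2
    rw [h, Subgroup.mem_bot] at h1
    have h3 : x = 1 := Subtype.ext h1
    rw [h3, orderOf_one] at hx
    exact hp.out.one_lt.ne hx

/-- Nontrivial nilpotent normal subgroups give nontrivial abelian normal subgroups. -/
theorem exists_center {G : Type} [Group G] [Finite G] (N : Subgroup G) [hN : N.Normal]
    (hnil : Group.IsNilpotent N) (hne : N ≠ ⊥) :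
    ∃ A : Subgroup G, A.Normal ∧ (∀ a ∈ A, ∀ b ∈ A, a * b = b * a) ∧ A ≠ ⊥ ∧ A ≤ N := by
  have hnt : Nontrivial N := (Subgroup.nontrivial_iff_ne_bot N).2 hne
  refine ⟨(Subgroup.center N).map N.subtype, inferInstance, ?_, ?_, Subgroup.map_subtype_le _⟩
  · rintro _ ⟨a, ha, rfl⟩ _ ⟨b, hb, rfl⟩
    rw [← map_mul, ← map_mul, (Subgroup.mem_center_iff.1 ha b).symm]
  · intro h
    rw [Subgroup.map_eq_bot_iff_of_injective _ (Subgroup.subtype_injective N)] at h
    exact Group.IsNilpotent.center_ne_bot N h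

/-- If no group of `F` has a nontrivial abelian normal subgroup then the lattice is
distributive. -/
theorem distrib_of_noAb (F : Formation) (h : NoAb F) : Distrib F := by
  have h1 : Crit F := by
    refine AbSyl.crit_of F ?_
    intro G _ _ hG p hp hpd
    exfalso
    by_cases hne : frattini G = ⊥
    · rw [hne] at hpd
      rw [Subgroup.card_bot] at hpd
      exact hp.one_lt.ne' (Nat.dvd_one.1 hpd)
    · obtain ⟨A, hA, hab, hA1, _⟩ := exists_center (frattini G) frattini_nilpotent hne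
      exact hA1 (h G A hG hab)
  rintro ⟨X, hX⟩ ⟨Y, hY⟩ ⟨Z, hZ⟩
  exact Subtype.ext ((crit_iff F).2 h1 X Y Z hX hY hZ)

theorem obs' (F : Formation) (p : ℕ) [hp : Fact p.Prime]
    (h : ∀ (P : Type) [Group P] [Finite P], IsPGroup p P → F.mem P) : ¬ Distrib F :=
  obstruction F (h (XG p) isPGroup_XG)

/-- The local form. -/
theorem noNormalP (F : Formation) (p : ℕ) [hp : Fact p.Prime] (hW : WSat F p) (hD : Distrib F) :
    NoNormalP F p := by
  intro G _ _ N _ hG hN
  by_contra hne
  obtain ⟨A, hA, hab, hA1, hAN⟩ := exists_center N hN.isNilpotent hne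
  have hAp : IsPGroup p A := hN.to_le hAN
  have hpA : p ∣ Nat.card A := by
    obtain ⟨n, hn⟩ := IsPGroup.iff_card.1 hAp
    rcases Nat.eq_zero_or_pos n with h0 | h0
    · rw [h0, pow_zero] at hn
      exact absurd ((Subgroup.card_eq_one).1 hn) hA1
    · rw [hn]
      exact dvd_pow_self p h0.ne'
  obtain ⟨V, hVn, hVc, hexp, hV1⟩ := exists_V p A hab hpA
  obtain ⟨C, iC, fC, hC, hCF⟩ := exists_card_p V p hexp F hW hG hV1
  exact obs' F p (fun P _ _ hP => pgroup_mem F p hW hC hCF P hP) hD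

theorem noAb_of_wSat (F : Formation) (hW : ∀ p : ℕ, p.Prime → WSat F p) (hD : Distrib F) :
    NoAb F := by
  intro G _ _ A _ hG hab
  by_contra hne
  have hnt : Nontrivial A := (Subgroup.nontrivial_iff_ne_bot A).2 hne
  obtain ⟨p, hp, hpA⟩ := Nat.exists_prime_and_dvd (Finite.one_lt_card_iff_nontrivial.2 hnt).ne'
  have : Fact p.Prime := ⟨hp⟩
  obtain ⟨V, hVn, hVc, hexp, hV1⟩ := exists_V p A hab hpA
  refine hV1 (noNormalP F p (hW p hp) hD G V hG ?_)
  intro x
  exact ⟨1, by rw [pow_one]; exact hexp x⟩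

theorem noAb_of_fitting (F : Formation) (hF : Fitting F) (hD : Distrib F) : NoAb F := by
  intro G _ _ A _ hG hab
  by_contra hne
  have hnt : Nontrivial A := (Subgroup.nontrivial_iff_ne_bot A).2 hne
  obtain ⟨p, hp, hpA⟩ := Nat.exists_prime_and_dvd (Finite.one_lt_card_iff_nontrivial.2 hnt).ne'
  have : Fact p.Prime := ⟨hp⟩
  have hAF : F.mem A := hF.1 G A hG
  obtain ⟨x, hx⟩ := exists_prime_orderOf_dvd_card' p hpA
  have hn : (Subgroup.zpowers x).Normal := by
    refine ⟨fun y hy g => ?_⟩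
    have h1 : g * y * g⁻¹ = y := by
      have h2 : g * y = y * g := Subtype.ext (hab g g.2 y y.2)
      rw [h2, mul_inv_cancel_right]
    rw [h1]
    exact hy
  have hxF : F.mem (Subgroup.zpowers x) := hF.1 A (Subgroup.zpowers x) hAF
  have hc : Nat.card (Subgroup.zpowers x) = p := by rw [Nat.card_zpowers, hx]
  exact obs' F p (fun P _ _ hP => fit_pgroup_mem F hF p hc hxF P hP) hD

/-- Formations which are saturated (in the weak sense) for all primes, and Fitting formations. -/
theorem distrib_iff_noAb (F : Formation) (hF : (∀ p : ℕ, p.Prime → WSat F p) ∨ Fitting F) :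
    Distrib F ↔ NoAb F := by
  constructor
  · intro hD
    rcases hF with hF | hF
    · exact noAb_of_wSat F hF hD
    · exact noAb_of_fitting F hF hD
  · exact distrib_of_noAb F

/-- Saturated formations. -/
theorem distrib_iff_trivial (F : Formation) (hF : Saturated F) :
    Distrib F ↔ ∀ (G : Type) [Group G] [Finite G], F.mem G → Subsingleton G := by
  have h1 : ∀ p : ℕ, p.Prime → WSat F p := fun p hp => by
    have : Fact p.Prime := ⟨hp⟩
    exact hF.solSaturated.wSat p
  rw [distrib_iff_noAb F (Or.inl h1)]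
  constructor
  · intro hN G _ _ hG
    by_contra hns
    have hnt : Nontrivial G := not_subsingleton_iff_nontrivial.1 hns
    obtain ⟨H, iH, fH, A, hH, hA, hab, hA1⟩ := exists_abelian hF hG hnt
    exact hA1 (hN H A hH hab)
  · intro hT G _ _ A _ hG _
    have := hT G hG
    exact Subsingleton.elim _ _

end Pool.Agent.FormZ
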