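import Pool.Agent.FormZ.Law

set_option autoImplicit false

/-!
# The obstruction for the prime `p`
-/

namespace Pool.Agent.FormZ

open Pool.Agent.Formn Pool.Agent.Formn.Formation Polynomial
open scoped commutatorElement

section ring

variable (p : ℕ)

/-- Polynomials modulo `p ^ 2`. -/
abbrev Po : Type := (ZMod (p ^ 2))[X]

/-- The ideal `(p X ^ 2, X ^ (p + 2))`. -/
noncomputable def J1 : Ideal (Po p) := Ideal.span {C (p : ZMod (p ^ 2)) * X ^ 2, X ^ (p + 2)}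

/-- The ideal `(X ^ (p + 1))`. -/
noncomputable def J2 : Ideal (Po p) := Ideal.span {X ^ (p + 1)}

/-- The intersection of `J1` and `J2`. -/
noncomputable def J0 : Ideal (Po p) := J1 p ⊓ J2 p

/-- The ideal generated by `J0` and `p X ^ 2 - X ^ (p + 1)`. -/
noncomputable def J3 : Ideal (Po p) := J0 p ⊔ Ideal.span {C (p : ZMod (p ^ 2)) * X ^ 2 - X ^ (p + 1)}

variable {p}

theorem X_mem_J1 : (X : Po p) ^ (p + 2) ∈ J1 p := Ideal.subset_span (by simp)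

theorem pX_mem_J1 : C (p : ZMod (p ^ 2)) * X ^ 2 ∈ J1 p := Ideal.subset_span (by simp)

theorem X_mem_J2' : (X : Po p) ^ (p + 1) ∈ J2 p := Ideal.subset_span rfl

theorem X_mem_J2 : (X : Po p) ^ (p + 2) ∈ J2 p := by
  have h : (X : Po p) ^ (p + 2) = X ^ (p + 1) * X := by ring
  rw [h]
  exact Ideal.mul_mem_right _ _ X_mem_J2'

theorem X_mem_J0 : (X : Po p) ^ (p + 2) ∈ J0 p := ⟨X_mem_J1, X_mem_J2⟩

theorem pXp_mem_J0 (hp : 1 ≤ p) : C (p : ZMod (p ^ 2)) * X ^ (p + 1) ∈ J0 p := by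
  refine ⟨?_, Ideal.mul_mem_left _ _ X_mem_J2'⟩
  have h : C (p : ZMod (p ^ 2)) * X ^ (p + 1) = C (p : ZMod (p ^ 2)) * X ^ 2 * X ^ (p - 1) := by
    rw [mul_assoc, ← pow_add]
    congr 2
    omega
  rw [h]
  exact Ideal.mul_mem_right _ _ pX_mem_J1

theorem J0_le_J1 : J0 p ≤ J1 p := inf_le_left

theorem J0_le_J2 : J0 p ≤ J2 p := inf_le_right

theorem J0_le_J3 : J0 p ≤ J3 p := le_sup_left

theorem X_mem_J3 : (X : Po p) ^ (p + 2) ∈ J3 p := J0_le_J3 X_mem_J0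

theorem diff_mem_J3 : C (p : ZMod (p ^ 2)) * X ^ 2 - X ^ (p + 1) ∈ J3 p :=
  (le_sup_right : _ ≤ J3 p) (Ideal.subset_span rfl)

theorem pp_zero : (p : ZMod (p ^ 2)) * (p : ZMod (p ^ 2)) = 0 := by
  have h : ((p ^ 2 : ℕ) : ZMod (p ^ 2)) = 0 := ZMod.natCast_self _
  rw [← h]
  push_cast
  ring

/-- The coefficient at `X ^ 2` vanishes on `J2`. -/
theorem coeff_two_J2 (hp : 2 ≤ p) {f : Po p} (h : f ∈ J2 p) : f.coeff 2 = 0 := by
  rw [J2, Ideal.mem_span_singleton'] at h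
  obtain ⟨a, rfl⟩ := h
  rw [coeff_mul_X_pow', if_neg (by omega)]

/-- The coefficient at `X ^ (p + 1)` is divisible by `p` on `J1`. -/
theorem coeff_J1 {f : Po p} (h : f ∈ J1 p) : (p : ZMod (p ^ 2)) * f.coeff (p + 1) = 0 := by
  rw [J1, Ideal.mem_span_pair] at h
  obtain ⟨a, b, rfl⟩ := h
  rw [coeff_add, coeff_mul_X_pow', if_neg (by omega), add_zero, mul_comm (C _) (X ^ 2),
    ← mul_assoc, coeff_mul_C, mul_comm _ (p : ZMod (p ^ 2)), ← mul_assoc, pp_zero, zero_mul]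

theorem p_ne_zero (hp : 2 ≤ p) : (p : ZMod (p ^ 2)) ≠ 0 := by
  intro h
  rw [ZMod.natCast_eq_zero_iff] at h
  have h1 := Nat.le_of_dvd (by omega) h
  nlinarith

theorem pX_not_mem_J3 (hp : 2 ≤ p) : C (p : ZMod (p ^ 2)) * X ^ 2 ∉ J3 p := by
  intro h
  rw [J3, Submodule.mem_sup] at h
  obtain ⟨j, ⟨hj1, hj2⟩, z, hz, hjz⟩ := h
  rw [Ideal.mem_span_singleton'] at hz
  obtain ⟨a, rfl⟩ := hz
  have h1 := coeff_J1 hj1
  have h2 := coeff_two_J2 hp hj2
  have e2 := congrArg (fun f => coeff f 2) hjz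
  have e3 := congrArg (fun f => (p : ZMod (p ^ 2)) * coeff f (p + 1)) hjz
  simp only [mul_sub, coeff_add, coeff_sub, mul_add] at e2 e3
  have t1 : (a * (C (p : ZMod (p ^ 2)) * X ^ 2)).coeff 2 = (p : ZMod (p ^ 2)) * a.coeff 0 := by
    rw [← mul_assoc, mul_comm a, mul_assoc, coeff_C_mul, coeff_mul_X_pow', if_pos le_rfl]
  have t2 : (a * X ^ (p + 1)).coeff 2 = 0 := by
    rw [coeff_mul_X_pow', if_neg (by omega)]
  have t3 : (a * X ^ (p + 1)).coeff (p + 1) = a.coeff 0 := by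
    rw [coeff_mul_X_pow', if_pos le_rfl, Nat.sub_self]
  have t4 : (p : ZMod (p ^ 2)) * (a * (C (p : ZMod (p ^ 2)) * X ^ 2)).coeff (p + 1) = 0 := by
    rw [← mul_assoc, mul_comm a, mul_assoc, coeff_C_mul, ← mul_assoc, pp_zero, zero_mul]
  have t5 : (C (p : ZMod (p ^ 2)) * X ^ 2).coeff 2 = (p : ZMod (p ^ 2)) := by
    rw [coeff_C_mul, coeff_X_pow, if_pos rfl, mul_one]
  have t6 : (C (p : ZMod (p ^ 2)) * X ^ 2).coeff (p + 1) = 0 := by
    rw [coeff_C_mul, coeff_X_pow, if_neg (by omega), mul_zero]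
  rw [h2, t1, t2, t5] at e2
  rw [h1, t4, t3, t6] at e3
  exact p_ne_zero hp (by linear_combination (-1) * e2 - e3)

theorem fermat (hp : p.Prime) (c : ZMod (p ^ 2)) :
    ∃ e : ZMod (p ^ 2), c - c ^ p = (p : ZMod (p ^ 2)) * e := by
  have : NeZero (p ^ 2) := ⟨by have := hp.pos; positivity⟩
  have hf : Fact p.Prime := ⟨hp⟩
  have h1 : ((c.val : ℤ) : ZMod (p ^ 2)) = c := by
    rw [Int.cast_natCast, ZMod.natCast_zmod_val]
  have h2 : (p : ℤ) ∣ (c.val : ℤ) - (c.val : ℤ) ^ p := by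
    rw [← ZMod.intCast_zmod_eq_zero_iff_dvd]
    push_cast
    rw [ZMod.pow_card, sub_self]
  obtain ⟨e, he⟩ := h2
  refine ⟨(e : ZMod (p ^ 2)), ?_⟩
  have h3 := congrArg (fun z : ℤ => (z : ZMod (p ^ 2))) he
  simp only [Int.cast_sub, Int.cast_pow, Int.cast_mul, Int.cast_natCast] at h3
  rw [Int.cast_natCast] at h1
  rw [h1] at h3
  exact h3

/-- In the last ideal the two laws have the same values. -/
theorem key_mem (hp : p.Prime) (f : Po p) :
    C (p : ZMod (p ^ 2)) * X ^ 2 * f - X ^ (p + 1) * f ^ p ∈ J3 p := by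
  have h1 : X ^ (p + 1) * (f - f ^ p) ∈ J0 p := by
    obtain ⟨g, hg⟩ := (X_dvd_sub_C : (X : Po p) ∣ f - C (f.coeff 0))
    obtain ⟨h, hh⟩ := sub_dvd_pow_sub_pow f (C (f.coeff 0)) p
    obtain ⟨e, he⟩ := fermat hp (f.coeff 0)
    have h2 : f - f ^ p = C (p : ZMod (p ^ 2)) * C e + X * (g - g * h) := by
      have h3 : C (f.coeff 0) - C (f.coeff 0) ^ p = C (p : ZMod (p ^ 2)) * C e := by
        rw [← C_pow, ← C_sub, he, C_mul]
      rw [hg] at hh
      linear_combination hg - hh + h3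
    rw [h2]
    have h3 : X ^ (p + 1) * (C (p : ZMod (p ^ 2)) * C e + X * (g - g * h)) =
        C (p : ZMod (p ^ 2)) * X ^ (p + 1) * C e + X ^ (p + 2) * (g - g * h) := by ring
    rw [h3]
    exact add_mem (Ideal.mul_mem_right _ _ (pXp_mem_J0 hp.one_le))
      (Ideal.mul_mem_right _ _ X_mem_J0)
  have h2 : C (p : ZMod (p ^ 2)) * X ^ 2 * f - X ^ (p + 1) * f ^ p =
      f * (C (p : ZMod (p ^ 2)) * X ^ 2 - X ^ (p + 1)) + X ^ (p + 1) * (f - f ^ p) := by ring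
  rw [h2]
  exact add_mem (Ideal.mul_mem_left _ _ diff_mem_J3) (J0_le_J3 h1)

theorem finite_quot (hp : p.Prime) {J : Ideal (Po p)} (h : (X : Po p) ^ (p + 2) ∈ J) :
    Finite (Po p ⧸ J) := by
  have : NeZero (p ^ 2) := ⟨by have := hp.pos; positivity⟩
  have h1 : Module.Finite (ZMod (p ^ 2)) (AdjoinRoot ((X : Po p) ^ (p + 2))) :=
    (monic_X_pow (p + 2)).finite_adjoinRoot
  have h2 : Finite (AdjoinRoot ((X : Po p) ^ (p + 2))) := Module.finite_of_finite (ZMod (p ^ 2))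
  have h4 : Finite (Po p ⧸ Ideal.span {(X : Po p) ^ (p + 2)}) := h2
  have h3 : Ideal.span {(X : Po p) ^ (p + 2)} ≤ J := by
    rw [Ideal.span_singleton_le_iff_mem]
    exact h
  exact Finite.of_surjective (Ideal.Quotient.factor h3 : Po p ⧸ _ → Po p ⧸ J)
    (Ideal.Quotient.factor_surjective h3)

theorem nilp {J : Ideal (Po p)} (h : (X : Po p) ^ (p + 2) ∈ J) :
    IsNilpotent (Ideal.Quotient.mk J X) :=
  ⟨p + 2, by rw [← map_pow]; exact Ideal.Quotient.eq_zero_iff_mem.2 h⟩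

end ring

end Pool.Agent.FormZ
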