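import Pool.Agent.FormZ.Zp2

set_option autoImplicit false

/-!
# Saturated formations
-/

namespace Pool.Agent.FormZ

open Pool.Agent.Formn Pool.Agent.Formn.Formation
open scoped commutatorElement

/-- The Frattini subgroup of a normal subgroup is contained in the Frattini subgroup. -/
theorem frattini_map_le {E : Type} [Group E] [Finite E] (N : Subgroup E) [hN : N.Normal] :
    (frattini N).map N.subtype ≤ frattini E := by
  have key : ∀ M : Subgroup E, IsCoatom M → (frattini N).map N.subtype ≤ M := by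
    intro M hM
    by_contra hD
    have hD' : ((frattini N).map N.subtype).Normal := inferInstance
    have h1 : M ⊔ (frattini N).map N.subtype = ⊤ := by
      apply hM.2
      exact lt_of_le_of_ne le_sup_left fun h => hD (by rw [h]; exact le_sup_right)
    have h2 : M.subgroupOf N ⊔ frattini N = ⊤ := by
      rw [eq_top_iff]
      rintro ⟨n, hn⟩ -
      have h3 : n ∈ ((M ⊔ (frattini N).map N.subtype : Subgroup E) : Set E) := by
        rw [h1]; trivial
      rw [Subgroup.mul_normal] at h3
      obtain ⟨m, hm, d, hd, hmd⟩ := h3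
      obtain ⟨d', hd', rfl⟩ := hd
      have hmN : m ∈ N := by
        have h4 : m = n * (d' : E)⁻¹ := by
          rw [← hmd]
          change m = m * (d' : E) * (d' : E)⁻¹
          rw [mul_inv_cancel_right]
        rw [h4]
        exact N.mul_mem hn (N.inv_mem d'.2)
      have h5 : (⟨n, hn⟩ : N) = ⟨m, hmN⟩ * d' := Subtype.ext hmd.symm
      rw [h5]
      exact Subgroup.mul_mem_sup (by rw [Subgroup.mem_subgroupOf]; exact hm) hd'
    have h3 := frattini_nongenerating h2
    rw [Subgroup.subgroupOf_eq_top] at h3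
    apply hD
    exact (Subgroup.map_subtype_le _).trans h3
  rw [frattini, Order.radical]
  exact le_iInf₂ fun M hM => key M hM

theorem Saturated.solSaturated {F : Formation} (h : Saturated F) : SolSaturated F := by
  intro E _ _ N _ _ hE
  refine h E ?_
  have h1 : F.q ((frattini N).map N.subtype) := ⟨inferInstance, hE⟩
  exact (q_mono h1 (frattini_map_le N) inferInstance).2

theorem SolSaturated.wSat {F : Formation} (h : SolSaturated F) (p : ℕ) [hp : Fact p.Prime] :
    WSat F p := by
  intro E _ _ N _ hN hE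
  have h1 : Group.IsNilpotent N := hN.isNilpotent
  exact h E N inferInstance hE

/-! ### A Frattini extension with an abelian kernel -/

section ext

variable {G : Type} [Group G] (p : ℕ) [hp : Fact p.Prime] (x : G) (s : G → ZMod p)
  (hs : ∀ h, s (h * x) = s h + 1)

theorem exists_s [Finite G] (hx : orderOf x = p) : ∃ s : G → ZMod p, ∀ h, s (h * x) = s h + 1 := by
  classical
  have h1 : ∀ h : G, ∃ k : ℕ, (Quotient.out (h : G ⧸ Subgroup.zpowers x)) * x ^ k = h := by
    intro h
    have h2 : ((Quotient.out (h : G ⧸ Subgroup.zpowers x) : G) : G ⧸ Subgroup.zpowers x) = h :=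
      Quotient.out_eq _
    rw [QuotientGroup.eq] at h2
    obtain ⟨k, hk⟩ := mem_powers_iff_mem_zpowers.2 h2
    exact ⟨k, by
      have hk' : x ^ k = (Quotient.out (h : G ⧸ Subgroup.zpowers x))⁻¹ * h := hk
      rw [hk', mul_inv_cancel_left]⟩
  choose k hk using h1
  refine ⟨fun h => (k h : ZMod p), fun h => ?_⟩
  have h3 : ((h * x : G) : G ⧸ Subgroup.zpowers x) = (h : G ⧸ Subgroup.zpowers x) := by
    rw [QuotientGroup.eq]
    have h4 : (h * x)⁻¹ * h = x⁻¹ := by group
    rw [h4]
    exact Subgroup.inv_mem _ (Subgroup.mem_zpowers x)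
  have h4 := hk (h * x)
  rw [h3] at h4
  have h5 : x ^ k (h * x) = x ^ (k h + 1) := by
    have h6 := hk h
    have h7 : Quotient.out (h : G ⧸ Subgroup.zpowers x) * x ^ k (h * x) =
        Quotient.out (h : G ⧸ Subgroup.zpowers x) * x ^ (k h + 1) := by
      rw [h4, pow_succ, ← mul_assoc, h6]
    exact mul_left_cancel h7
  rw [pow_eq_pow_iff_modEq, hx] at h5
  have h6 := (ZMod.natCast_eq_natCast_iff _ _ _).2 h5
  change ((k (h * x) : ℕ) : ZMod p) = (k h : ZMod p) + 1
  rw [h6]
  push_cast
  rfl

/-- The reduction modulo `p`. -/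
noncomputable def red : ZMod (p ^ 2) →+* ZMod p := ZMod.castHom (dvd_pow_self p two_ne_zero) _

/-- The extension. -/
noncomputable def EX : Subgroup (Wr G G (ZMod (p ^ 2))) where
  carrier := {w | (∀ h, w.f (h * x) = w.f h) ∧ ∀ h, red p (w.f h) = s h - s (w.g⁻¹ * h)}
  mul_mem' := by
    rintro a b ⟨ha1, ha2⟩ ⟨hb1, hb2⟩
    constructor
    · intro h
      rw [Wr.mul_f, Wr.mul_f, ha1]
      congr 1
      rw [smul_eq_mul, smul_eq_mul, ← mul_assoc, hb1]
    · intro h
      rw [Wr.mul_f, map_add, ha2, hb2, Wr.mul_g, mul_inv_rev, smul_eq_mul, mul_assoc]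
      ring
  one_mem' := by
    constructor
    · intro h
      rfl
    · intro h
      rw [Wr.one_f, map_zero, Wr.one_g, inv_one, one_mul, sub_self]
  inv_mem' := by
    rintro a ⟨ha1, ha2⟩
    constructor
    · intro h
      rw [Wr.inv_f, Wr.inv_f, smul_eq_mul, smul_eq_mul, ← mul_assoc, ha1]
    · intro h
      rw [Wr.inv_f, map_neg, ha2, Wr.inv_g, inv_inv, smul_eq_mul, inv_mul_cancel_left]
      ring

/-- The projection. -/
noncomputable def prX : EX p x s →* G := Wr.pr.comp (EX p x s).subtype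

include hs in
theorem prX_surj : Function.Surjective (prX p x s) := by
  intro g
  refine ⟨⟨⟨fun h => ((s h - s (g⁻¹ * h)).val : ZMod (p ^ 2)), g⟩, ?_, ?_⟩, rfl⟩
  · intro h
    change (((s (h * x) - s (g⁻¹ * (h * x))).val : ℕ) : ZMod (p ^ 2)) =
      ((s h - s (g⁻¹ * h)).val : ZMod (p ^ 2))
    rw [← mul_assoc, hs, hs]
    congr 2
    ring
  · intro h
    change red p (((s h - s (g⁻¹ * h)).val : ℕ) : ZMod (p ^ 2)) = s h - s (g⁻¹ * h)
    rw [map_natCast, ZMod.natCast_zmod_val]

include hs in
theorem pow_ne_one (w : EX p x s) (hw : w.1.g = x) : w ^ p ≠ 1 := by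
  have hinv : ∀ n : ℕ, w.1.f (x ^ n)⁻¹ = w.1.f 1 := by
    intro n
    induction n with
    | zero => rw [pow_zero, inv_one]
    | succ n ih =>
      have e : x ^ (n + 1) = x * x ^ n := pow_succ' x n
      rw [← ih, e, mul_inv_rev, ← w.2.1 ((x ^ n)⁻¹ * x⁻¹), inv_mul_cancel_right]
  have hpow : ∀ n : ℕ, (w.1 ^ n).f 1 = n * w.1.f 1 ∧ (w.1 ^ n).g = x ^ n := by
    intro n
    induction n with
    | zero =>
      rw [pow_zero, pow_zero]
      refine ⟨?_, rfl⟩
      rw [Wr.one_f]
      simp
    | succ n ih =>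
      have e : w.1 ^ (n + 1) = w.1 ^ n * w.1 := pow_succ w.1 n
      constructor
      · rw [e, Wr.mul_f, ih.1, ih.2, smul_eq_mul, mul_one, hinv]
        push_cast
        ring
      · have e2 : x ^ (n + 1) = x ^ n * x := pow_succ x n
        rw [e, Wr.mul_g, ih.2, hw, e2]
  intro h
  have h1 : w.1 ^ p = 1 := congrArg Subtype.val h
  have h2 := (hpow p).1
  rw [h1, Wr.one_f] at h2
  have h3 : red p (w.1.f 1) = 1 := by
    rw [w.2.2, hw, mul_one]
    have h4 := hs x⁻¹
    rw [inv_mul_cancel] at h4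
    rw [h4]
    ring
  -- `p * c = 0` in `ZMod (p ^ 2)` gives that `p` divides `c`
  have : NeZero (p ^ 2) := ⟨by have := hp.out.pos; positivity⟩
  set c := w.1.f 1 with hc
  have h5 : ((p * c.val : ℕ) : ZMod (p ^ 2)) = 0 := by
    push_cast
    rw [ZMod.natCast_zmod_val, ← h2]
  rw [ZMod.natCast_eq_zero_iff] at h5
  have h5' : p * p ∣ p * c.val := (pow_two p).symm.dvd.trans h5
  have h6 : p ∣ c.val := Nat.dvd_of_mul_dvd_mul_left hp.out.pos h5'
  have h7 : red p c = 0 := by
    rw [← ZMod.natCast_zmod_val c, map_natCast, ZMod.natCast_eq_zero_iff]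
    exact h6
  rw [h7] at h3
  exact zero_ne_one h3

end ext

/-- A minimal supplement of a normal subgroup. -/
theorem exists_min_supp {E : Type} [Group E] [Finite E] (K : Subgroup E) :
    ∃ H : Subgroup E, H ⊔ K = ⊤ ∧ K.subgroupOf H ≤ frattini H := by
  have hfin : {H : Subgroup E | H ⊔ K = ⊤}.Finite := Set.toFinite _
  obtain ⟨H, hH⟩ := hfin.exists_minimal ⟨⊤, by simp⟩
  refine ⟨H, hH.1, ?_⟩
  have key : ∀ M : Subgroup H, IsCoatom M → K.subgroupOf H ≤ M := by
    intro M hM
    by_contra hK
    have h1 : M ⊔ K.subgroupOf H = ⊤ := by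
      apply hM.2
      exact lt_of_le_of_ne le_sup_left fun h => hK (by rw [h]; exact le_sup_right)
    have h2 : M.map H.subtype ⊔ K = ⊤ := by
      have h3 : H ≤ M.map H.subtype ⊔ K := by
        have h4 : (M ⊔ K.subgroupOf H).map H.subtype = H := by
          rw [h1, ← MonoidHom.range_eq_map, Subgroup.range_subtype]
        have h4' : M.map H.subtype ⊔ (K.subgroupOf H).map H.subtype = H := by
          rw [← Subgroup.map_sup, h4]
        refine h4'.ge.trans (sup_le_sup le_rfl ?_)
        rw [Subgroup.subgroupOf_map_subtype]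
        exact inf_le_left
      rw [eq_top_iff, ← hH.1]
      exact sup_le h3 le_sup_right
    have h3 : H ≤ M.map H.subtype := hH.2 h2 (Subgroup.map_subtype_le M)
    apply hM.1
    rw [eq_top_iff]
    intro h _
    obtain ⟨m, hm, hmh⟩ := h3 h.2
    have : m = h := Subtype.ext hmh
    rw [← this]
    exact hm
  rw [frattini, Order.radical]
  exact le_iInf₂ fun M hM => key M hM

/-- A saturated formation with a nontrivial group contains a group with a nontrivial abelian
normal subgroup. -/
theorem exists_abelian {F : Formation} (hF : Saturated F) {G : Type} [Group G] [Finite G]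
    (hG : F.mem G) (hn : Nontrivial G) :
    ∃ (H : Type) (_ : Group H) (_ : Finite H) (A : Subgroup H), F.mem H ∧ A.Normal ∧
      (∀ a ∈ A, ∀ b ∈ A, a * b = b * a) ∧ A ≠ ⊥ := by
  obtain ⟨p, hp, hpd⟩ := Nat.exists_prime_and_dvd (Finite.one_lt_card_iff_nontrivial.2 hn).ne'
  have : Fact p.Prime := ⟨hp⟩
  obtain ⟨x, hx⟩ := exists_prime_orderOf_dvd_card' p hpd
  obtain ⟨s, hs⟩ := exists_s p x hx
  have : NeZero (p ^ 2) := ⟨by have := hp.pos; positivity⟩
  obtain ⟨H, hH, hfr⟩ := exists_min_supp (prX p x s).ker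
  let ψ : H →* G := (prX p x s).comp H.subtype
  have hker : ψ.ker = (prX p x s).ker.subgroupOf H := rfl
  have hψ : Function.Surjective ψ := by
    intro g
    obtain ⟨w, rfl⟩ := prX_surj p x s hs g
    have h1 : w ∈ ((H ⊔ (prX p x s).ker : Subgroup (EX p x s)) : Set (EX p x s)) := by
      rw [hH]; trivial
    rw [Subgroup.mul_normal] at h1
    obtain ⟨h, hh, k, hk, rfl⟩ := h1
    refine ⟨⟨h, hh⟩, ?_⟩
    have hk' : prX p x s k = 1 := hk
    change prX p x s h = prX p x s (h * k)
    rw [map_mul, hk', mul_one]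
  have hHF : F.mem H := by
    refine hF H ?_
    have h1 : F.q ψ.ker := (q_hom ψ hψ).2 hG
    rw [hker] at h1
    exact (q_mono h1 hfr inferInstance).2
  refine ⟨H, inferInstance, inferInstance, ψ.ker, hHF, inferInstance, ?_, ?_⟩
  · intro a ha b hb
    have ha' : (a : EX p x s).1.g = 1 := ha
    have hb' : (b : EX p x s).1.g = 1 := hb
    apply Subtype.ext
    apply Subtype.ext
    apply Wr.ext
    · funext ω
      change (a : EX p x s).1.f ω + (b : EX p x s).1.f ((a : EX p x s).1.g⁻¹ • ω) =
        (b : EX p x s).1.f ω + (a : EX p x s).1.f ((b : EX p x s).1.g⁻¹ • ω)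
      rw [ha', hb', inv_one, one_smul, add_comm]
    · change (a : EX p x s).1.g * (b : EX p x s).1.g = (b : EX p x s).1.g * (a : EX p x s).1.g
      rw [ha', hb']
  · intro h
    have hinj : Function.Injective ψ := (MonoidHom.ker_eq_bot_iff ψ).1 h
    obtain ⟨w, hw⟩ := hψ x
    have h1 : w ^ p = 1 := by
      apply hinj
      rw [map_pow, hw, map_one, ← hx, pow_orderOf_eq_one]
    have hw' : (w : EX p x s).1.g = x := hw
    exact pow_ne_one p x s hs w hw' (congrArg Subtype.val h1)

end Pool.Agent.FormZ
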