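import Pool.Agent.FormZ.Cls

set_option autoImplicit false

/-!
# Formations with a weak saturation property contain the groups of order `p`
-/

namespace Pool.Agent.FormZ

open Pool.Agent.Formn Pool.Agent.Formn.Formation
open scoped commutatorElement

/-! ### Semidirect products with groups of functions -/

/-- Functions on `Ω` with values in `A`, and elements of `Γ`. -/
@[ext]
structure Wr (Γ Ω A : Type) where
  f : Ω → A
  g : Γ

namespace Wr

variable {Γ Ω A : Type} [Group Γ] [MulAction Γ Ω] [AddCommGroup A]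

instance : Group (Wr Γ Ω A) where
  mul x y := ⟨fun ω => x.f ω + y.f (x.g⁻¹ • ω), x.g * y.g⟩
  one := ⟨0, 1⟩
  inv x := ⟨fun ω => -x.f (x.g • ω), x.g⁻¹⟩
  mul_assoc x y z := by
    apply Wr.ext
    · funext ω
      change x.f ω + y.f (x.g⁻¹ • ω) + z.f ((x.g * y.g)⁻¹ • ω) =
        x.f ω + (y.f (x.g⁻¹ • ω) + z.f (y.g⁻¹ • (x.g⁻¹ • ω)))
      rw [mul_inv_rev, mul_smul, add_assoc]
    · exact mul_assoc _ _ _
  one_mul x := by
    apply Wr.ext
    · funext ω
      change 0 + x.f ((1 : Γ)⁻¹ • ω) = x.f ω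
      rw [inv_one, one_smul, zero_add]
    · exact one_mul _
  mul_one x := by
    apply Wr.ext
    · funext ω
      change x.f ω + 0 = x.f ω
      rw [add_zero]
    · exact mul_one _
  inv_mul_cancel x := by
    apply Wr.ext
    · funext ω
      change -x.f (x.g • ω) + x.f ((x.g⁻¹)⁻¹ • ω) = 0
      rw [inv_inv, neg_add_cancel]
    · exact inv_mul_cancel _

theorem mul_f (x y : Wr Γ Ω A) (ω : Ω) : (x * y).f ω = x.f ω + y.f (x.g⁻¹ • ω) := rfl

theorem mul_g (x y : Wr Γ Ω A) : (x * y).g = x.g * y.g := rfl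

theorem one_f (ω : Ω) : (1 : Wr Γ Ω A).f ω = 0 := rfl

theorem one_g : (1 : Wr Γ Ω A).g = 1 := rfl

theorem inv_f (x : Wr Γ Ω A) (ω : Ω) : (x⁻¹).f ω = -x.f (x.g • ω) := rfl

theorem inv_g (x : Wr Γ Ω A) : (x⁻¹).g = x.g⁻¹ := rfl

/-- The projection to `Γ`. -/
def pr : Wr Γ Ω A →* Γ where
  toFun x := x.g
  map_one' := rfl
  map_mul' _ _ := rfl

/-- Powers of elements over the identity. -/
theorem pow_f (x : Wr Γ Ω A) (hx : x.g = 1) (n : ℕ) :
    x ^ n = ⟨fun ω => n • x.f ω, 1⟩ := by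
  induction n with
  | zero =>
    rw [pow_zero]
    apply Wr.ext
    · funext ω
      change (0 : A) = 0 • x.f ω
      rw [zero_nsmul]
    · rfl
  | succ n ih =>
    rw [pow_succ, ih]
    apply Wr.ext
    · funext ω
      rw [mul_f]
      change n • x.f ω + x.f ((1 : Γ)⁻¹ • ω) = (n + 1) • x.f ω
      rw [inv_one, one_smul, succ_nsmul]
    · rw [mul_g, hx, mul_one]

instance [Finite Γ] [Finite Ω] [Finite A] : Finite (Wr Γ Ω A) :=
  Finite.of_injective (fun x : Wr Γ Ω A => (x.f, x.g)) (by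
    intro x y h
    exact Wr.ext (congrArg Prod.fst h) (congrArg Prod.snd h))

end Wr

/-! ### The setting -/

section setting

variable {G : Type} [Group G] [Finite G] (V : Subgroup G) [hV : V.Normal]

/-- The group `fib V` acts on `V`. -/
instance actV : MulAction (fib V) V where
  smul γ x := ⟨γ.1.1 * x * γ.1.2⁻¹, by
    have h1 : γ.1.1 * (x : G) * γ.1.2⁻¹ = (γ.1.1 * x * γ.1.1⁻¹) * (γ.1.1 * γ.1.2⁻¹) := by group
    rw [h1]
    exact V.mul_mem (hV.conj_mem _ x.2 _) γ.2⟩
  one_smul x := by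
    apply Subtype.ext
    change 1 * (x : G) * 1⁻¹ = x
    simp
  mul_smul γ δ x := by
    apply Subtype.ext
    change γ.1.1 * δ.1.1 * (x : G) * (γ.1.2 * δ.1.2)⁻¹ = γ.1.1 * (δ.1.1 * x * δ.1.2⁻¹) * γ.1.2⁻¹
    group

omit [Finite G] in
theorem smul_coe (γ : fib V) (x : V) : ((γ • x : V) : G) = γ.1.1 * x * γ.1.2⁻¹ := rfl

open Classical in
/-- The sum of the values. -/
noncomputable instance : Fintype V := Fintype.ofFinite V

variable (p : ℕ)

/-- Functions with sum zero. -/
noncomputable def EE : Subgroup (Wr (fib V) V (ZMod p)) where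
  carrier := {w | ∑ x, w.f x = 0}
  mul_mem' := by
    intro a b ha hb
    change ∑ x, (a * b).f x = 0
    simp only [Wr.mul_f]
    rw [Finset.sum_add_distrib, ha, zero_add]
    have h := Equiv.sum_comp (MulAction.toPerm (a.g⁻¹ : fib V)) b.f
    simp only [MulAction.toPerm_apply] at h
    rw [h]
    exact hb
  one_mem' := by
    change ∑ x, (1 : Wr (fib V) V (ZMod p)).f x = 0
    simp [Wr.one_f]
  inv_mem' := by
    intro a ha
    change ∑ x, (a⁻¹).f x = 0
    simp only [Wr.inv_f]
    rw [Finset.sum_neg_distrib]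
    have h := Equiv.sum_comp (MulAction.toPerm (a.g : fib V)) a.f
    simp only [MulAction.toPerm_apply] at h
    rw [h]
    have ha' : ∑ x, a.f x = 0 := ha
    rw [ha', neg_zero]

theorem mem_EE (w : Wr (fib V) V (ZMod p)) : w ∈ EE V p ↔ ∑ x, w.f x = 0 := Iff.rfl

end setting

/-- Commutative subgroups. -/
class CommV {G : Type} [Group G] (V : Subgroup G) : Prop where
  comm : ∀ x y : V, x * y = y * x

instance {G : Type} [Group G] (V : Subgroup G) [CommV V] : CommGroup V :=
  { (inferInstance : Group V) with mul_comm := CommV.comm }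

section eab'

variable {G : Type} [Group G] [Finite G] (V : Subgroup G) [hV : V.Normal] [CommV V] (p : ℕ)
  [hp : Fact p.Prime]

/-- The product of the elements `x` with exponents `f x`. -/
noncomputable def sg (f : V → ZMod p) : V := ∏ x : V, x ^ (f x).val

variable (hexp : ∀ x : V, x ^ p = 1)

include hexp in
omit hV in
theorem sg_add (f h : V → ZMod p) : sg V p (f + h) = sg V p f * sg V p h := by
  rw [sg, sg, sg, ← Finset.prod_mul_distrib]
  refine Finset.prod_congr rfl fun x _ => ?_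
  rw [Pi.add_apply, ZMod.val_add, ← pow_eq_pow_mod _ (hexp x), pow_add]

omit hV in
open Classical in
theorem sg_single (v : V) : sg V p (Pi.single v 1) = v := by
  have : Fact (1 < p) := ⟨hp.out.one_lt⟩
  rw [sg, Finset.prod_eq_single v]
  · rw [Pi.single_eq_same, ZMod.val_one, pow_one]
  · intro b _ hb
    rw [Pi.single_eq_of_ne hb, ZMod.val_zero, pow_zero]
  · intro h
    exact absurd (Finset.mem_univ v) h

include hexp in
omit hV [CommV V] in
theorem pow_sum (f : V → ZMod p) (hf : ∑ x, f x = 0) (v : V) : v ^ (∑ x, (f x).val) = 1 := by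
  have h1 : ((∑ x, (f x).val : ℕ) : ZMod p) = 0 := by
    rw [Nat.cast_sum, ← hf]
    exact Finset.sum_congr rfl fun x _ => ZMod.natCast_zmod_val _
  rw [ZMod.natCast_eq_zero_iff] at h1
  obtain ⟨k, hk⟩ := h1
  rw [hk, pow_mul, hexp, one_pow]

include hexp in
theorem sg_smul (γ : fib V) (f : V → ZMod p) (hf : ∑ x, f x = 0) :
    sg V p (fun x => f (γ⁻¹ • x)) = MulAut.conjNormal γ.1.2 (sg V p f) := by
  have h1 : sg V p (fun x => f (γ⁻¹ • x)) = ∏ y : V, (γ • y) ^ (f y).val := by
    rw [sg, ← Equiv.prod_comp (MulAction.toPerm γ)]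
    refine Finset.prod_congr rfl fun y _ => ?_
    rw [MulAction.toPerm_apply, inv_smul_smul]
  have h2 : ∀ y : V, γ • y = (⟨γ.1.1 * γ.1.2⁻¹, γ.2⟩ : V) * MulAut.conjNormal γ.1.2 y := by
    intro y
    apply Subtype.ext
    rw [smul_coe, Subgroup.coe_mul, MulAut.conjNormal_apply]
    group
  rw [h1]
  simp only [h2, mul_pow]
  rw [Finset.prod_mul_distrib, Finset.prod_pow_eq_pow_sum, pow_sum V p hexp f hf, one_mul, sg,
    map_prod]
  exact Finset.prod_congr rfl fun y _ => (map_pow _ _ _).symm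

/-- The projection to `fib V`. -/
noncomputable def pi1 : EE V p →* fib V := Wr.pr.comp (EE V p).subtype

omit [CommV V] hp in
theorem pi1_surj : Function.Surjective (pi1 V p) := by
  intro γ
  refine ⟨⟨⟨0, γ⟩, ?_⟩, rfl⟩
  rw [mem_EE]
  simp

include hexp in
/-- The second homomorphism to `fib V`. -/
noncomputable def pi2 : EE V p →* fib V where
  toFun w := ⟨((sg V p w.1.f : G) * w.1.g.1.2, w.1.g.1.2), by
    rw [mem_fib]
    change (sg V p w.1.f : G) * w.1.g.1.2 * w.1.g.1.2⁻¹ ∈ V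
    rw [mul_inv_cancel_right]
    exact (sg V p w.1.f).2⟩
  map_one' := by
    apply Subtype.ext
    have h1 : sg V p (1 : EE V p).1.f = 1 := by
      rw [sg]
      refine Finset.prod_eq_one fun x _ => ?_
      change x ^ (0 : ZMod p).val = 1
      rw [ZMod.val_zero, pow_zero]
    rw [h1]
    change ((1 : G) * 1, (1 : G)) = 1
    rw [mul_one]
    rfl
  map_mul' := by
    intro w w'
    apply Subtype.ext
    have h1 : (w * w').1.f = w.1.f + fun x => w'.1.f (w.1.g⁻¹ • x) := rfl
    have h3 : (sg V p (w * w').1.f : G) =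
        (sg V p w.1.f : G) * (w.1.g.1.2 * (sg V p w'.1.f : G) * w.1.g.1.2⁻¹) := by
      rw [h1, sg_add V p hexp, sg_smul V p hexp _ _ w'.2, Subgroup.coe_mul,
        MulAut.conjNormal_apply]
    apply Prod.ext
    · change (sg V p (w * w').1.f : G) * (w.1.g.1.2 * w'.1.g.1.2) =
        ((sg V p w.1.f : G) * w.1.g.1.2) * ((sg V p w'.1.f : G) * w'.1.g.1.2)
      rw [h3]
      group
    · rfl

open Classical in
theorem pi2_surj : Function.Surjective (pi2 V p hexp) := by
  intro γ
  let v : V := ⟨γ.1.1 * γ.1.2⁻¹, γ.2⟩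
  let f : V → ZMod p := Pi.single v 1 - Pi.single 1 1
  have hsum : ∑ x, f x = 0 := by
    simp only [f, Pi.sub_apply, Finset.sum_sub_distrib, Finset.sum_pi_single', Finset.mem_univ,
      if_true, sub_self]
  have hsg : sg V p f = v := by
    have h1 : f + Pi.single 1 1 = Pi.single v 1 := sub_add_cancel _ _
    have h2 := sg_add V p hexp f (Pi.single 1 1)
    rw [h1, sg_single, sg_single, mul_one] at h2
    exact h2.symm
  refine ⟨⟨⟨f, γ⟩, hsum⟩, ?_⟩
  apply Subtype.ext
  apply Prod.ext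
  · change (sg V p f : G) * γ.1.2 = γ.1.1
    rw [hsg]
    change γ.1.1 * γ.1.2⁻¹ * γ.1.2 = γ.1.1
    rw [inv_mul_cancel_right]
  · rfl

/-- The second component of the projection. -/
noncomputable def pib : EE V p →* G :=
  ((MonoidHom.snd G G).comp (fib V).subtype).comp (pi1 V p)

/-- The kernel of `pib`. -/
noncomputable def NN : Subgroup (EE V p) := (pib V p).ker

instance : (NN V p).Normal := MonoidHom.normal_ker _

omit [CommV V] hp in
theorem mem_NN (w : EE V p) : w ∈ NN V p ↔ w.1.g.1.2 = 1 := Iff.rfl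

include hexp in
omit [CommV V] hp in
theorem isPGroup_NN : IsPGroup p (NN V p) := by
  rintro ⟨w, hw⟩
  rw [mem_NN] at hw
  refine ⟨2, ?_⟩
  apply Subtype.ext
  apply Subtype.ext
  change (w.1) ^ (p ^ 2) = 1
  rw [pow_two, pow_mul]
  have hmem : w.1.g.1.1 ∈ V := by
    have h1 := w.1.g.2
    rw [mem_fib, hw, inv_one, mul_one] at h1
    exact h1
  have hg : (w.1 ^ p).g = 1 := by
    have h1 : (w.1 ^ p).g = w.1.g ^ p := map_pow Wr.pr w.1 p
    rw [h1]
    apply Subtype.ext
    apply Prod.ext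
    · change w.1.g.1.1 ^ p = 1
      exact congrArg Subtype.val (hexp ⟨w.1.g.1.1, hmem⟩)
    · change w.1.g.1.2 ^ p = 1
      rw [hw, one_pow]
  rw [Wr.pow_f _ hg]
  apply Wr.ext
  · funext x
    change p • (w.1 ^ p).f x = 0
    rw [nsmul_eq_mul, ZMod.natCast_self, zero_mul]
  · rfl

end eab'

end Pool.Agent.FormZ
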