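import Pool.Agent.FormZ.Zp

set_option autoImplicit false

/-!
# Formations with a weak saturation property contain the groups of order `p`, continued
-/

namespace Pool.Agent.FormZ

open Pool.Agent.Formn Pool.Agent.Formn.Formation
open scoped commutatorElement

section main

variable {G : Type} [Group G] [Finite G] (V : Subgroup G) [hV : V.Normal] [CommV V] (p : ℕ)
  [hp : Fact p.Prime] (hexp : ∀ x : V, x ^ p = 1)

/-- The Frattini subgroup of `NN`. -/
noncomputable def FN : Subgroup (EE V p) := (frattini (NN V p)).map (NN V p).subtype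

instance : (FN V p).Normal := by
  unfold FN
  infer_instance

/-- The elements of `EE` over the identity. -/
noncomputable def el (f : V → ZMod p) (h : ∑ x, f x = 0) : EE V p := ⟨⟨f, 1⟩, h⟩

/-- The functions which give elements of `FN`. -/
noncomputable def SS : AddSubgroup (V → ZMod p) where
  carrier := {f | ∃ h : ∑ x, f x = 0, el V p f h ∈ FN V p}
  add_mem' := by
    rintro a b ⟨ha, ha'⟩ ⟨hb, hb'⟩
    have hs : ∑ x, (a + b) x = 0 := by
      simp only [Pi.add_apply]
      rw [Finset.sum_add_distrib, ha, hb, add_zero]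
    refine ⟨hs, ?_⟩
    have h1 : el V p (a + b) hs = el V p a ha * el V p b hb := by
      apply Subtype.ext
      apply Wr.ext
      · funext x
        change a x + b x = a x + b ((1 : fib V)⁻¹ • x)
        rw [inv_one, one_smul]
      · change (1 : fib V) = 1 * 1
        rw [mul_one]
    rw [h1]
    exact (FN V p).mul_mem ha' hb'
  zero_mem' := by
    refine ⟨by simp, ?_⟩
    have h1 : el V p 0 (by simp) = 1 := rfl
    rw [h1]
    exact (FN V p).one_mem
  neg_mem' := by
    rintro a ⟨ha, ha'⟩
    have hs : ∑ x, (-a) x = 0 := by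
      simp only [Pi.neg_apply]
      rw [Finset.sum_neg_distrib, ha, neg_zero]
    refine ⟨hs, ?_⟩
    have h1 : el V p (-a) hs = (el V p a ha)⁻¹ := by
      apply Subtype.ext
      apply Wr.ext
      · funext x
        change -a x = -a ((1 : fib V) • x)
        rw [one_smul]
      · change (1 : fib V) = 1⁻¹
        rw [inv_one]
    rw [h1]
    exact (FN V p).inv_mem ha'

/-- The translation by `v`. -/
noncomputable def tr (v : V) : EE V p := ⟨⟨0, ⟨((v : G), 1), by
  rw [mem_fib, inv_one, mul_one]; exact v.2⟩⟩, by rw [mem_EE]; simp⟩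

include hexp in
omit [CommV V] in
theorem comm_mem_SS (v : V) (h : V → ZMod p) (hh : ∑ x, h x = 0) :
    (fun x => h (v⁻¹ * x) - h x) ∈ SS V p := by
  have hs : ∑ x, (h (v⁻¹ * x) - h x) = 0 := by
    have e := Equiv.sum_comp (Equiv.mulLeft v⁻¹) h
    simp only [Equiv.coe_mulLeft] at e
    rw [Finset.sum_sub_distrib, e, sub_self]
  refine ⟨hs, ?_⟩
  have h1 : el V p _ hs = ⁅tr V p v, el V p h hh⁆ := by
    rw [commutatorElement_def]
    apply Subtype.ext
    apply Wr.ext
    · funext x
      simp only [Subgroup.coe_mul, Wr.mul_f, Subgroup.coe_inv, Wr.inv_f, Wr.inv_g, Wr.mul_g]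
      have e1 : ∀ y : V, ((tr V p v).1.g⁻¹ : fib V) • y = v⁻¹ * y := by
        intro y
        apply Subtype.ext
        change (v : G)⁻¹ * (y : G) * (1⁻¹)⁻¹ = (v : G)⁻¹ * y
        simp
      have e2 : ∀ y : V, ((tr V p v).1.g : fib V) • y = v * y := by
        intro y
        apply Subtype.ext
        change (v : G) * (y : G) * 1⁻¹ = (v : G) * y
        simp
      have e3 : (el V p h hh).1.g = 1 := rfl
      have e4 : ∀ y, (tr V p v).1.f y = 0 := fun y => rfl
      have e5 : ∀ y, (el V p h hh).1.f y = h y := fun y => rfl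
      rw [e3]
      simp only [mul_one, one_smul, mul_inv_rev, inv_inv, mul_smul, e1, e2, e4, e5]
      change h (v⁻¹ * x) - h x = _
      simp [sub_eq_add_neg]
    · change (1 : fib V) = _
      simp only [Subgroup.coe_mul, Subgroup.coe_inv, Wr.inv_g, Wr.mul_g]
      have e3 : (el V p h hh).1.g = 1 := rfl
      rw [e3]
      simp
  rw [h1]
  have m1 : tr V p v ∈ NN V p := by
    rw [mem_NN]
    rfl
  have m2 : el V p h hh ∈ NN V p := by
    rw [mem_NN]
    rfl
  have h2 := comm_mem_frattini (isPGroup_NN V p hexp) (⟨_, m1⟩ : NN V p) ⟨_, m2⟩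
  exact ⟨_, h2, rfl⟩

open Classical in
include hexp in
/-- The homomorphism from `V` to the functions modulo `SS`. -/
theorem tau_exists : ∃ T : V →* Multiplicative ((V → ZMod p) ⧸ SS V p),
    ∀ v, T v = Multiplicative.ofAdd (QuotientAddGroup.mk (Pi.single v 1 - Pi.single 1 1)) := by
  refine ⟨
    { toFun := fun v => Multiplicative.ofAdd (QuotientAddGroup.mk (Pi.single v 1 - Pi.single 1 1))
      map_one' := by
        rw [sub_self]
        rfl
      map_mul' := ?_ }, fun v => rfl⟩
  intro v w
  rw [← ofAdd_add]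
  congr 1
  rw [← QuotientAddGroup.mk_add, QuotientAddGroup.eq]
  have hs : ∑ x, (Pi.single w 1 - Pi.single 1 1 : V → ZMod p) x = 0 := by
    simp only [Pi.sub_apply, Finset.sum_sub_distrib, Finset.sum_pi_single', Finset.mem_univ,
      if_true, sub_self]
  have h1 := comm_mem_SS V p hexp v _ hs
  have h2 : -(Pi.single (v * w) 1 - Pi.single 1 1 : V → ZMod p) +
      (Pi.single v 1 - Pi.single 1 1 + (Pi.single w 1 - Pi.single 1 1)) =
      -(fun x => (Pi.single w 1 - Pi.single 1 1 : V → ZMod p) (v⁻¹ * x) -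
        (Pi.single w 1 - Pi.single 1 1 : V → ZMod p) x) := by
    funext x
    have e1 : (Pi.single w 1 : V → ZMod p) (v⁻¹ * x) = (Pi.single (v * w) 1 : V → ZMod p) x := by
      simp only [Pi.single_apply, inv_mul_eq_iff_eq_mul]
    have e2 : (Pi.single 1 1 : V → ZMod p) (v⁻¹ * x) = (Pi.single v 1 : V → ZMod p) x := by
      simp only [Pi.single_apply, inv_mul_eq_iff_eq_mul, mul_one]
    simp only [Pi.add_apply, Pi.neg_apply, Pi.sub_apply, e1, e2]
    ring
  rw [h2]
  exact (SS V p).neg_mem h1

open Classical in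
include hexp in
theorem mem_SS_of (f : V → ZMod p) (hf : ∑ x, f x = 0) (hs : sg V p f = 1) : f ∈ SS V p := by
  obtain ⟨T, hT⟩ := tau_exists V p hexp
  have h1 : T (sg V p f) = 1 := by rw [hs, map_one]
  rw [sg, map_prod] at h1
  simp only [map_pow] at h1
  simp only [hT] at h1
  have h2 : (QuotientAddGroup.mk f : (V → ZMod p) ⧸ SS V p) = 0 := by
    have h3 : f = ∑ v : V, (f v).val • (Pi.single v 1 - Pi.single 1 1 : V → ZMod p) := by
      funext x
      rw [Finset.sum_apply]
      simp only [Pi.smul_apply, Pi.sub_apply, nsmul_eq_mul, ZMod.natCast_zmod_val, mul_sub]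
      rw [Finset.sum_sub_distrib, ← Finset.sum_mul, hf, zero_mul, sub_zero]
      simp [Pi.single_apply]
    have h4 : (QuotientAddGroup.mk f : (V → ZMod p) ⧸ SS V p) = ∑ v : V, (f v).val •
        (QuotientAddGroup.mk (Pi.single v 1 - Pi.single 1 1) : (V → ZMod p) ⧸ SS V p) := by
      conv_lhs => rw [h3]
      change QuotientAddGroup.mk' (SS V p) _ = _
      rw [map_sum]
      refine Finset.sum_congr rfl fun v _ => ?_
      rw [map_nsmul]
      rfl
    rw [h4]
    exact h1
  rwa [QuotientAddGroup.eq_zero_iff] at h2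

include hexp in
theorem inf_le_FN : (pi1 V p).ker ⊓ (pi2 V p hexp).ker ≤ FN V p := by
  rintro ⟨⟨f, g⟩, hf⟩ ⟨h1, h2⟩
  have h1' : g = 1 := h1
  subst h1'
  have h2' := congrArg (fun z : fib V => z.1.1) ((MonoidHom.mem_ker).1 h2)
  have h3 : (sg V p f : G) * 1 = 1 := h2'
  rw [mul_one] at h3
  obtain ⟨_, h4⟩ := mem_SS_of V p hexp f hf (Subtype.ext h3)
  exact h4

include hexp in
theorem EE_mem (F : Formation) (hW : WSat F p) (hG : F.mem G) : F.mem (EE V p) := by
  refine hW (EE V p) (NN V p) (isPGroup_NN V p hexp) ?_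
  have h1 : F.mem (fib V) := fib_mem F V hG
  have h2 : F.q ((pi1 V p).ker ⊓ (pi2 V p hexp).ker) :=
    q_inf ((q_hom _ (pi1_surj V p)).2 h1) ((q_hom _ (pi2_surj V p hexp)).2 h1)
  exact (q_mono h2 (inf_le_FN V p hexp) (inferInstance : (FN V p).Normal)).2

include hexp in
/-- The formation contains a group of order `p`. -/
theorem exists_card_p (F : Formation) (hW : WSat F p) (hG : F.mem G) (hV1 : V ≠ ⊥) :
    ∃ (C : Type) (_ : Group C) (_ : Finite C), Nat.card C = p ∧ F.mem C := by
  have hE := EE_mem V p hexp F hW hG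
  -- `p` divides the order of `V`
  obtain ⟨v, hv1⟩ := Subgroup.ne_bot_iff_exists_ne_one.1 hV1
  have hcard : p ∣ Nat.card V := by
    have h1 : orderOf v = p := orderOf_eq_prime (hexp v) hv1
    rw [← h1]
    exact orderOf_dvd_natCard v
  have hsum : ∑ _x : V, (1 : ZMod p) = 0 := by
    rw [Finset.sum_const, nsmul_eq_mul, mul_one, Finset.card_univ, ← Nat.card_eq_fintype_card,
      ZMod.natCast_eq_zero_iff]
    exact hcard
  let z : EE V p := el V p (fun _ => 1) hsum
  have hzc : ∀ w : EE V p, w * z = z * w := by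
    intro w
    apply Subtype.ext
    apply Wr.ext
    · funext x
      change w.1.f x + 1 = 1 + w.1.f ((1 : fib V)⁻¹ • x)
      rw [inv_one, one_smul, add_comm]
    · change w.1.g * 1 = 1 * w.1.g
      rw [mul_one, one_mul]
  have hzp : z ^ p = 1 := by
    apply Subtype.ext
    change z.1 ^ p = 1
    rw [Wr.pow_f _ rfl]
    apply Wr.ext
    · funext x
      change p • (1 : ZMod p) = 0
      rw [nsmul_eq_mul, ZMod.natCast_self, zero_mul]
    · rfl
  have hz1 : z ≠ 1 := by
    intro h
    have h1 := congrArg (fun w : EE V p => w.1.f 1) h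
    have h2 : (1 : ZMod p) = 0 := h1
    exact one_ne_zero h2
  refine ⟨Subgroup.zpowers z, inferInstance, inferInstance, ?_, ?_⟩
  · rw [Nat.card_zpowers]
    exact orderOf_eq_prime hzp hz1
  · refine central_mem F _ ?_ hE
    intro y hy g
    obtain ⟨k, rfl⟩ := Subgroup.mem_zpowers_iff.1 hy
    exact ((Commute.zpow_right (hzc g) k : Commute g (z ^ k))).eq

end main

/-- Weakly saturated formations with a group of order `p` contain all finite `p`-groups. -/
theorem pgroup_mem (F : Formation) (p : ℕ) [hp : Fact p.Prime] (hW : WSat F p) {C : Type}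
    [Group C] [Finite C] (hC : Nat.card C = p) (hF : F.mem C) (P : Type) [Group P] [Finite P]
    (hP : IsPGroup p P) : F.mem P := by
  have hT : IsPGroup p (⊤ : Subgroup P) := hP.to_subgroup ⊤
  refine hW P ⊤ hT ?_
  have h1 := q_frattini F hC hF hT
  have h2 : F.q ((frattini (⊤ : Subgroup P)).map (⊤ : Subgroup P).subtype) := by
    rw [← q_comap (⊤ : Subgroup P).subtype (fun x => ⟨⟨x, trivial⟩, rfl⟩),
      Subgroup.comap_map_eq_self_of_injective (Subgroup.subtype_injective _)]
    exact h1
  exact h2.2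

end Pool.Agent.FormZ
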